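import Mathlib

/-! Measures on compact spaces given by states, and dimension functions. -/

set_option autoImplicit false

open MeasureTheory Filter Topology
open scoped CompactlySupported ComplexOrder

noncomputable section

namespace Pool.Agent.S71.UQ

/-- a real function as a complex function -/
def cxf {X : Type*} [TopologicalSpace X] (f : C(X, ℝ)) : C(X, ℂ) :=
  ⟨fun x => (f x : ℂ), by fun_prop⟩

section

variable {X : Type*} [TopologicalSpace X]

@[simp] theorem cxf_apply (f : C(X, ℝ)) (x : X) : cxf f x = (f x : ℂ) := rfl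

theorem cxf_add (f g : C(X, ℝ)) : cxf (f + g) = cxf f + cxf g := by
  ext x; simp

theorem cxf_mul (f g : C(X, ℝ)) : cxf (f * g) = cxf f * cxf g := by
  ext x; simp

theorem cxf_smul (c : ℝ) (f : C(X, ℝ)) : cxf (c • f) = (c : ℂ) • cxf f := by
  ext x; simp

theorem cxf_one : cxf (1 : C(X, ℝ)) = 1 := by
  ext x; simp

theorem cxf_zero : cxf (0 : C(X, ℝ)) = 0 := by
  ext x; simp

theorem cxf_sub (f g : C(X, ℝ)) : cxf (f - g) = cxf f - cxf g := by
  ext x; simp

theorem star_cxf (f : C(X, ℝ)) : star (cxf f) = cxf f := by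
  ext x
  change star ((f x : ℂ)) = _
  rw [Complex.star_def, Complex.conj_ofReal]
  rfl

/-- the square root of a function -/
def sq (f : C(X, ℝ)) : C(X, ℝ) := ⟨fun x => Real.sqrt (f x), by fun_prop⟩

theorem sq_mul_sq (f : C(X, ℝ)) (hf : ∀ x, 0 ≤ f x) : sq f * sq f = f := by
  ext x
  exact Real.mul_self_sqrt (hf x)

theorem sq_apply (f : C(X, ℝ)) (x : X) : sq f x = Real.sqrt (f x) := rfl

end

section riesz

variable {X : Type*} [TopologicalSpace X] [CompactSpace X] [T2Space X] [MeasurableSpace X]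
  [BorelSpace X]

theorem exists_measure (t : C(X, ℂ) →ₗ[ℂ] ℂ) (h1 : t 1 = 1) (hpos : ∀ f, 0 ≤ t (star f * f)) :
    ∃ μ : Measure X, IsProbabilityMeasure μ ∧ μ.Regular ∧
      ∀ f : C(X, ℝ), t (cxf f) = ((∫ x, f x ∂μ : ℝ) : ℂ) := by
  have hp : ∀ f : C(X, ℝ), (∀ x, 0 ≤ f x) → 0 ≤ t (cxf f) := by
    intro f hf
    have := hpos (cxf (sq f))
    rwa [star_cxf, ← cxf_mul, sq_mul_sq f hf] at this
  have him : ∀ f : C(X, ℝ), (t (cxf f)).im = 0 := by
    intro f
    let c : C(X, ℝ) := ⟨fun _ => ‖f‖, by fun_prop⟩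
    have e1 := (Complex.nonneg_iff.1 (hp (f + c) fun x => by
      have := f.norm_coe_le_norm x
      rw [Real.norm_eq_abs, abs_le] at this
      change 0 ≤ f x + ‖f‖
      linarith)).2
    have e2 := (Complex.nonneg_iff.1 (hp c fun x => norm_nonneg f)).2
    rw [cxf_add, map_add, Complex.add_im, ← e2, add_zero] at e1
    exact e1.symm
  let Λ : C_c(X, ℝ) →ₚ[ℝ] ℝ :=
    { toFun := fun g => (t (cxf g.toContinuousMap)).re
      map_add' := fun g g' => by
        have : cxf (g + g').toContinuousMap = cxf g.toContinuousMap + cxf g'.toContinuousMap := by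
          ext x; simp
        rw [this, map_add, Complex.add_re]
      map_smul' := fun c g => by
        have : cxf (c • g).toContinuousMap = (c : ℂ) • cxf g.toContinuousMap := by
          ext x; simp
        rw [this, map_smul, smul_eq_mul, Complex.re_ofReal_mul]
        rfl
      monotone' := fun g g' hgg' => by
        have h2 := (Complex.nonneg_iff.1 (hp (g'.toContinuousMap - g.toContinuousMap)
          fun x => sub_nonneg.2 (hgg' x))).1
        rw [cxf_sub, map_sub, Complex.sub_re] at h2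
        change (t (cxf g.toContinuousMap)).re ≤ (t (cxf g'.toContinuousMap)).re
        linarith }
  have hint : ∀ f : C(X, ℝ), t (cxf f) = ((∫ x, f x ∂(RealRMK.rieszMeasure Λ) : ℝ) : ℂ) := by
    intro f
    let g : C_c(X, ℝ) := ⟨f, HasCompactSupport.of_compactSpace _⟩
    have h2 := RealRMK.integral_rieszMeasure Λ g
    have h3 : ∫ x, f x ∂(RealRMK.rieszMeasure Λ) = (t (cxf f)).re := h2
    rw [h3]
    apply Complex.ext
    · simp
    · simp [him f]
  refine ⟨RealRMK.rieszMeasure Λ, ⟨?_⟩, inferInstance, hint⟩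
  have h4 := hint 1
  rw [cxf_one, h1] at h4
  have h5 : (∫ x, (1 : C(X, ℝ)) x ∂(RealRMK.rieszMeasure Λ) : ℝ) = 1 := by exact_mod_cast h4.symm
  simp only [ContinuousMap.one_apply, integral_const, smul_eq_mul, mul_one] at h5
  have h6 : (RealRMK.rieszMeasure Λ).real Set.univ = 1 := h5
  rw [Measure.real, ENNReal.toReal_eq_one_iff] at h6
  exact h6

end riesz

section dim

variable {X : Type*} [TopologicalSpace X] [CompactSpace X] [MeasurableSpace X]
  [BorelSpace X] (μ : Measure X) [IsProbabilityMeasure μ]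

theorem tendsto_dim (f : C(X, ℝ)) (hf : ∀ x, 0 ≤ f x) :
    Tendsto (fun k : ℕ => ∫ x, (f x) ^ (1 / ((k : ℝ) + 1)) ∂μ) atTop
      (𝓝 (μ.real {x | 0 < f x})) := by
  have hm : MeasurableSet {x | 0 < f x} := (isOpen_lt continuous_const f.continuous).measurableSet
  have h0 : μ.real {x | 0 < f x} = ∫ x, Set.indicator {x | 0 < f x} (fun _ => (1 : ℝ)) x ∂μ := by
    rw [integral_indicator hm]
    simp
  rw [h0]
  refine tendsto_integral_of_dominated_convergence (fun _ => 1 + ‖f‖) ?_ ?_ ?_ ?_
  · intro k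
    refine Continuous.aestronglyMeasurable ?_
    exact f.continuous.rpow_const fun x => Or.inr (by positivity)
  · exact integrable_const _
  · intro k
    refine Eventually.of_forall fun x => ?_
    rw [Real.norm_eq_abs, abs_of_nonneg (Real.rpow_nonneg (hf x) _)]
    have h2 : f x ≤ 1 + ‖f‖ := by
      have := f.norm_coe_le_norm x
      rw [Real.norm_eq_abs] at this
      have := (le_abs_self _).trans this
      linarith
    have h3 : (1 : ℝ) ≤ 1 + ‖f‖ := by have := norm_nonneg f; linarith
    calc (f x) ^ (1 / ((k : ℝ) + 1)) ≤ (1 + ‖f‖) ^ (1 / ((k : ℝ) + 1)) :=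
          Real.rpow_le_rpow (hf x) h2 (by positivity)
      _ ≤ (1 + ‖f‖) ^ (1 : ℝ) := by
          refine Real.rpow_le_rpow_of_exponent_le h3 ?_
          rw [div_le_one (by positivity)]
          have : (0 : ℝ) ≤ k := by positivity
          linarith
      _ = 1 + ‖f‖ := Real.rpow_one _
  · refine Eventually.of_forall fun x => ?_
    have hk : Tendsto (fun k : ℕ => 1 / ((k : ℝ) + 1)) atTop (𝓝 0) :=
      tendsto_one_div_add_atTop_nhds_zero_nat
    by_cases hx : 0 < f x
    · rw [Set.indicator_of_mem (show x ∈ {x | 0 < f x} from hx)]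
      have h2 : Tendsto (fun k : ℕ => (f x) ^ (1 / ((k : ℝ) + 1))) atTop (𝓝 ((f x) ^ (0 : ℝ))) :=
        (Real.continuousAt_const_rpow hx.ne').tendsto.comp hk
      rwa [Real.rpow_zero] at h2
    · rw [Set.indicator_of_notMem (show x ∉ {x | 0 < f x} from hx)]
      have h3 : f x = 0 := le_antisymm (not_lt.1 hx) (hf x)
      have h4 : ∀ k : ℕ, (f x) ^ (1 / ((k : ℝ) + 1)) = 0 := fun k => by
        rw [h3, Real.zero_rpow (by positivity)]
      simp only [h4]
      exact tendsto_const_nhds

end dim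

end Pool.Agent.S71.UQ
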