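import Pool.Agent.N300.UN.Basic
import Pool.Agent.N839.UN.Seq
import Pool.Agent.S71.UQ.Meas

/-! C*-algebraic lemmas. -/

set_option autoImplicit false

open Filter Topology

noncomputable section

namespace Pool.Agent.S71.UQ

open Pool.Agent.N300.UN

section calg

variable {B : Type} [CStarAlgebra B]

/-- the self-adjoint square root -/
theorem eq_cfc_sqrt (h : B) (hsa : IsSelfAdjoint h) (hpos : ∀ t ∈ spectrum ℝ h, 0 ≤ t) :
    cfc (fun t : ℝ => √t) (h * h) = h := by
  have e1 : h * h = cfc (fun t : ℝ => t * t) h := by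
    rw [cfc_mul (fun t : ℝ => t) (fun t => t) h continuousOn_id continuousOn_id, cfc_id' ℝ h hsa]
  rw [e1, ← cfc_comp' (fun t : ℝ => √t) (fun t : ℝ => t * t) h
    Real.continuous_sqrt.continuousOn (by fun_prop) hsa]
  conv_rhs => rw [← cfc_id' ℝ h hsa]
  refine cfc_congr fun t ht => ?_
  exact Real.sqrt_mul_self (hpos t ht)

theorem psq_unique (z z' : B) (h : star z * z * (star z * z) = star z' * z' * (star z' * z')) :
    star z * z = star z' * z' := by
  rw [← eq_cfc_sqrt (star z * z) (IsSelfAdjoint.star_mul_self z)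
    (fun t ht => spectrum_star_mul_self_nonneg t ht), h,
    eq_cfc_sqrt (star z' * z') (IsSelfAdjoint.star_mul_self z')
    (fun t ht => spectrum_star_mul_self_nonneg t ht)]

/-- polar decomposition of invertible elements -/
theorem polar_unit (x : B) (hx : IsUnit x) : ∃ (u : unitary B) (z : B), x = u * (star z * z) ∧
    star z * z * (star z * z) = star x * x ∧ ‖z‖ * ‖z‖ ≤ ‖x‖ := by
  set k : B := star x * x with hk
  have hksa : IsSelfAdjoint k := IsSelfAdjoint.star_mul_self x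
  have hku : IsUnit k := hx.star.mul hx
  have hk0 : ∀ t ∈ spectrum ℝ k, 0 < t := by
    intro t ht
    rcases (spectrum_star_mul_self_nonneg t ht).lt_or_eq with h3 | h3
    · exact h3
    · exact absurd ((spectrum.zero_notMem_iff ℝ).2 hku) (by rw [h3]; exact fun h => h ht)
  have c1 : ContinuousOn (fun t : ℝ => √t) (spectrum ℝ k) := Real.continuous_sqrt.continuousOn
  have c2 : ContinuousOn (fun t : ℝ => √√t) (spectrum ℝ k) := by fun_prop
  have c3 : ContinuousOn (fun t : ℝ => (√t)⁻¹) (spectrum ℝ k) :=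
    c1.inv₀ (fun t ht => (Real.sqrt_pos.2 (hk0 t ht)).ne')
  set p : B := cfc (fun t : ℝ => √t) k with hp
  set z : B := cfc (fun t : ℝ => √√t) k with hz
  set h : B := cfc (fun t : ℝ => (√t)⁻¹) k with hh
  have hzz : star z * z = p := by
    rw [hz, star_cfc, ← cfc_mul _ _ k c2 c2, hp]
    congr 1
    funext t
    exact Real.mul_self_sqrt (Real.sqrt_nonneg t)
  have hpp : p * p = k := by
    rw [hp, ← cfc_mul _ _ k c1 c1]
    conv_rhs => rw [← cfc_id' ℝ k hksa]
    refine cfc_congr fun t ht => ?_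
    exact Real.mul_self_sqrt (hk0 t ht).le
  have hph : p * h = 1 := by
    rw [hp, hh, ← cfc_mul _ _ k c1 c3, ← cfc_one ℝ k]
    refine cfc_congr fun t ht => ?_
    exact mul_inv_cancel₀ (Real.sqrt_pos.2 (hk0 t ht)).ne'
  have hhp : h * p = 1 := by
    rw [hp, hh, ← cfc_mul _ _ k c3 c1, ← cfc_one ℝ k]
    refine cfc_congr fun t ht => ?_
    exact inv_mul_cancel₀ (Real.sqrt_pos.2 (hk0 t ht)).ne'
  have hhs : star h = h := star_cfc _ _
  have hw1 : star (x * h) * (x * h) = 1 := by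
    rw [star_mul, hhs]
    calc h * star x * (x * h) = h * (star x * x) * h := by simp only [mul_assoc]
      _ = h * (p * p) * h := by rw [← hk, hpp]
      _ = (h * p) * (p * h) := by simp only [mul_assoc]
      _ = 1 := by rw [hhp, hph, one_mul]
  have hhu : IsUnit h := ⟨⟨h, p, hhp, hph⟩, rfl⟩
  have hwu : IsUnit (x * h) := hx.mul hhu
  have hw2 : (x * h) * star (x * h) = 1 := by
    obtain ⟨u, hu'⟩ := hwu
    rw [← hu'] at hw1 ⊢
    have : star (u : B) = ((u⁻¹ : Bˣ) : B) := by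
      calc star (u : B) = star (u : B) * ((u : B) * ((u⁻¹ : Bˣ) : B)) := by simp
        _ = (star (u : B) * (u : B)) * ((u⁻¹ : Bˣ) : B) := by rw [mul_assoc]
        _ = ((u⁻¹ : Bˣ) : B) := by rw [hw1, one_mul]
    rw [this]
    simp
  let w : unitary B := ⟨x * h, Unitary.mem_iff.2 ⟨hw1, hw2⟩⟩
  have hxw : x = (w : B) * p := by
    change x = x * h * p
    rw [mul_assoc, hhp, mul_one]
  refine ⟨w, z, by rw [hzz]; exact hxw, by rw [hzz]; exact hpp, ?_⟩
  have e1 : ‖p‖ = ‖x‖ := by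
    rw [hxw, CStarRing.norm_coe_unitary_mul]
  rw [← CStarRing.norm_star_mul_self, hzz, e1]

end calg

section seq

/-- the sequence algebra, with the constant sequences -/
theorem seqAlg (B : Type) [CStarAlgebra B] : ∃ (L Q : Type) (_ : CStarAlgebra L)
    (_ : CStarAlgebra Q) (ev : ℕ → (L →⋆ₐ[ℂ] B)) (pr : L →⋆ₐ[ℂ] Q) (c : B →⋆ₐ[ℂ] L),
    (∀ x : ℕ → B, (∃ C : ℝ, ∀ k, ‖x k‖ ≤ C) → ∃ X : L, ∀ k, ev k X = x k) ∧
    (∀ X Y : L, (∀ k, ev k X = ev k Y) → X = Y) ∧
    (∀ (X : L) (r : ℝ), ‖pr X‖ < r → ∀ᶠ k in Filter.atTop, ‖ev k X‖ < r) ∧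
    (∀ (X : L) (r : ℝ), 0 ≤ r → (∀ᶠ k in Filter.atTop, ‖ev k X‖ ≤ r) → ‖pr X‖ ≤ r) ∧
    ∀ k b, ev k (c b) = b := by
  obtain ⟨L, Q, _, _, ev, pr, lf, ext, hlt, hle⟩ := Pool.Agent.N839.UN.t_SEQ B
  have hc : ∀ b : B, ∃ X : L, ∀ k, ev k X = b := fun b => lf (fun _ => b) ⟨‖b‖, fun _ => le_rfl⟩
  choose c hc using hc
  refine ⟨L, Q, inferInstance, inferInstance, ev, pr,
    { toFun := c
      map_one' := ext _ _ fun k => by rw [hc, map_one]
      map_mul' := fun x y => ext _ _ fun k => by rw [hc, map_mul, hc, hc]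
      map_zero' := ext _ _ fun k => by rw [hc, map_zero]
      map_add' := fun x y => ext _ _ fun k => by rw [hc, map_add, hc, hc]
      commutes' := fun r => ext _ _ fun k => by rw [hc, AlgHomClass.commutes]
      map_star' := fun x => ext _ _ fun k => by rw [hc, map_star, hc] },
    lf, ext, hlt, hle, fun k b => hc b k⟩

end seq

end Pool.Agent.S71.UQ
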