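import Mathlib

/-! Disjoint cells in compact metric spaces. -/

set_option autoImplicit false

open MeasureTheory Filter Topology

noncomputable section

namespace Pool.Agent.S71.UQ

section cells

variable {X : Type*} [MetricSpace X] [CompactSpace X]

theorem cells0 {ι : Type*} [Finite ι] (K U : ι → Set X) (hK : ∀ a, IsCompact (K a))
    (hd : ∀ a b, a ≠ b → Disjoint (K a) (K b)) (hU : ∀ a, IsOpen (U a))
    (hKU : ∀ a, K a ⊆ U a) :
    ∃ g gh : ι → C(X, ℝ), (∀ a x, 0 ≤ g a x ∧ g a x ≤ 1) ∧ (∀ a x, 0 ≤ gh a x ∧ gh a x ≤ 1) ∧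
      (∀ a, ∀ x ∈ K a, g a x = 1) ∧ (∀ a, gh a * g a = g a) ∧
      (∀ a b, a ≠ b → gh a * gh b = 0) ∧ ∀ a x, gh a x ≠ 0 → x ∈ U a := by
  classical
  cases nonempty_fintype ι
  -- the radius
  have h1 : ∀ a b, ∃ r : ℝ, 0 < r ∧ (a ≠ b → Disjoint (Metric.thickening r (K a))
      (Metric.thickening r (K b))) := by
    intro a b
    by_cases hab : a = b
    · exact ⟨1, one_pos, fun h => absurd hab h⟩
    · obtain ⟨r, hr, h⟩ := (hd a b hab).exists_thickenings (hK a) (hK b).isClosed
      exact ⟨r, hr, fun _ => h⟩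
  have h2 : ∀ a, ∃ r : ℝ, 0 < r ∧ Metric.thickening r (K a) ⊆ U a := fun a =>
    (hK a).exists_thickening_subset_open (hU a) (hKU a)
  choose r1 hr1 hd1 using h1
  choose r2 hr2 hd2 using h2
  obtain ⟨ρ, hρ, hρ1, hρ2⟩ : ∃ ρ : ℝ, 0 < ρ ∧ (∀ a b, ρ ≤ r1 a b) ∧ ∀ a, ρ ≤ r2 a := by
    rcases isEmpty_or_nonempty ι with hι | hι
    · exact ⟨1, one_pos, fun a => (IsEmpty.false a).elim, fun a => (IsEmpty.false a).elim⟩
    · obtain ⟨p, -, hp⟩ := Finset.exists_min_image (Finset.univ : Finset (ι × ι))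
        (fun p => r1 p.1 p.2) Finset.univ_nonempty
      obtain ⟨q, -, hq⟩ := Finset.exists_min_image (Finset.univ : Finset ι) r2
        Finset.univ_nonempty
      exact ⟨min (r1 p.1 p.2) (r2 q), lt_min (hr1 _ _) (hr2 _),
        fun a b => (min_le_left _ _).trans (hp (a, b) (Finset.mem_univ _)),
        fun a => (min_le_right _ _).trans (hq a (Finset.mem_univ _))⟩
  let d : ι → X → ℝ := fun a x => Metric.infDist x (K a)
  have hdc : ∀ a, Continuous (d a) := fun a => Metric.continuous_infDist_pt _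
  let g : ι → C(X, ℝ) := fun a => if h : (K a).Nonempty then
    ⟨fun x => max 0 (1 - 2 * d a x / ρ), by have := hdc a; fun_prop⟩ else 0
  let gh : ι → C(X, ℝ) := fun a => if h : (K a).Nonempty then
    ⟨fun x => max 0 (min 1 (2 - 2 * d a x / ρ)), by have := hdc a; fun_prop⟩ else 0
  have hg : ∀ a, (K a).Nonempty → ∀ x, g a x = max 0 (1 - 2 * d a x / ρ) := fun a ha x => by
    simp only [g, dif_pos ha]; rfl
  have hgh : ∀ a, (K a).Nonempty → ∀ x, gh a x = max 0 (min 1 (2 - 2 * d a x / ρ)) :=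
    fun a ha x => by simp only [gh, dif_pos ha]; rfl
  have hg0 : ∀ a, ¬ (K a).Nonempty → ∀ x, g a x = 0 := fun a ha x => by
    simp only [g, dif_neg ha]; rfl
  have hgh0 : ∀ a, ¬ (K a).Nonempty → ∀ x, gh a x = 0 := fun a ha x => by
    simp only [gh, dif_neg ha]; rfl
  have hd0 : ∀ a x, 0 ≤ 2 * d a x / ρ := fun a x => by
    have : 0 ≤ d a x := Metric.infDist_nonneg
    positivity
  have hnear : ∀ a x, gh a x ≠ 0 → (K a).Nonempty ∧ x ∈ Metric.thickening ρ (K a) := by
    intro a x hx
    by_cases ha : (K a).Nonempty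
    · refine ⟨ha, ?_⟩
      rw [hgh a ha] at hx
      rw [Metric.mem_thickening_iff_infDist_lt ha]
      by_contra hcon
      push Not at hcon
      apply hx
      have : 2 ≤ 2 * d a x / ρ := by
        rw [le_div_iff₀ hρ]
        have : ρ ≤ d a x := hcon
        linarith
      exact max_eq_left ((min_le_right _ _).trans (by linarith))
    · exact absurd (hgh0 a ha x) hx
  refine ⟨g, gh, ?_, ?_, ?_, ?_, ?_, ?_⟩
  · intro a x
    by_cases ha : (K a).Nonempty
    · rw [hg a ha]
      exact ⟨le_max_left _ _, max_le zero_le_one (by linarith [hd0 a x])⟩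
    · rw [hg0 a ha]; exact ⟨le_rfl, zero_le_one⟩
  · intro a x
    by_cases ha : (K a).Nonempty
    · rw [hgh a ha]
      exact ⟨le_max_left _ _, max_le zero_le_one (min_le_left _ _)⟩
    · rw [hgh0 a ha]; exact ⟨le_rfl, zero_le_one⟩
  · intro a x hx
    rw [hg a ⟨x, hx⟩]
    have : d a x = 0 := Metric.infDist_zero_of_mem hx
    rw [this]
    simp
  · intro a
    ext x
    rw [ContinuousMap.mul_apply]
    by_cases ha : (K a).Nonempty
    · rcases le_or_gt (1 - 2 * d a x / ρ) 0 with h | h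
      · rw [hg a ha, max_eq_left h, mul_zero]
      · rw [hgh a ha, min_eq_left (by linarith), max_eq_right zero_le_one, one_mul]
    · rw [hg0 a ha, mul_zero]
  · intro a b hab
    ext x
    rw [ContinuousMap.mul_apply, ContinuousMap.zero_apply]
    by_contra hne
    have h3 := hnear a x (left_ne_zero_of_mul hne)
    have h4 := hnear b x (right_ne_zero_of_mul hne)
    exact Set.disjoint_left.1 (hd1 a b hab)
      (Metric.thickening_mono (hρ1 a b) _ h3.2) (Metric.thickening_mono (hρ1 a b) _ h4.2)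
  · intro a x hx
    exact hd2 a (Metric.thickening_mono (hρ2 a) _ (hnear a x hx).2)

/-- distinct points in infinite sets -/
theorem distinct_points {X : Type*} : ∀ (N : ℕ) (U : Fin N → Set X), (∀ j, (U j).Infinite) →
    ∃ z : Fin N → X, Function.Injective z ∧ ∀ j, z j ∈ U j := by
  classical
  intro N
  induction N with
  | zero => exact fun U _ => ⟨fun j => j.elim0, fun j => j.elim0, fun j => j.elim0⟩
  | succ N ih =>
    intro U hU
    obtain ⟨z, hz, hz'⟩ := ih (fun j => U j.castSucc) fun j => hU _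
    obtain ⟨y, hy, hy'⟩ := (hU (Fin.last N)).exists_notMem_finset (Finset.univ.image z)
    refine ⟨Fin.snoc z y, ?_, ?_⟩
    · intro i j hij
      induction i using Fin.lastCases with
      | last =>
        induction j using Fin.lastCases with
        | last => rfl
        | cast j =>
          rw [Fin.snoc_last, Fin.snoc_castSucc] at hij
          exact absurd (Finset.mem_image.2 ⟨j, Finset.mem_univ _, hij.symm⟩) hy'
      | cast i =>
        induction j using Fin.lastCases with
        | last =>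
          rw [Fin.snoc_last, Fin.snoc_castSucc] at hij
          exact absurd (Finset.mem_image.2 ⟨i, Finset.mem_univ _, hij⟩) hy'
        | cast j =>
          rw [Fin.snoc_castSucc, Fin.snoc_castSucc] at hij
          rw [hz hij]
    · intro j
      induction j using Fin.lastCases with
      | last => rw [Fin.snoc_last]; exact hy
      | cast j => rw [Fin.snoc_castSucc]; exact hz' j

/-- disjoint bump functions in given infinite open sets -/
theorem bumps {ι : Type*} [Finite ι] (U : ι → Set X) (hU : ∀ a, IsOpen (U a))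
    (hinf : ∀ a, (U a).Infinite) :
    ∃ g gh : ι → C(X, ℝ), (∀ a x, 0 ≤ g a x ∧ g a x ≤ 1) ∧ (∀ a x, 0 ≤ gh a x ∧ gh a x ≤ 1) ∧
      (∀ a, ∃ x, 0 < g a x) ∧ (∀ a, gh a * g a = g a) ∧
      (∀ a b, a ≠ b → gh a * gh b = 0) ∧ ∀ a x, gh a x ≠ 0 → x ∈ U a := by
  classical
  cases nonempty_fintype ι
  let e := Fintype.equivFin ι
  obtain ⟨z, hz, hz'⟩ := distinct_points _ (fun j => U (e.symm j)) fun j => hinf _
  obtain ⟨g, gh, h1, h2, h3, h4, h5, h6⟩ := cells0 (fun a => {z (e a)}) U
    (fun a => isCompact_singleton) (fun a b hab => by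
      rw [Set.disjoint_singleton]
      exact fun h => hab (e.injective (hz h)))
    hU (fun a => by
      rw [Set.singleton_subset_iff]
      have := hz' (e a)
      rwa [e.symm_apply_apply] at this)
  exact ⟨g, gh, h1, h2, fun a => ⟨z (e a), by rw [h3 a _ rfl]; exact one_pos⟩, h4, h5, h6⟩

/-- fine disjoint cells covering the space up to small measure -/
theorem cells [MeasurableSpace X] [BorelSpace X] (μ : Measure X) [IsFiniteMeasure μ] {ω η : ℝ}
    (hω : 0 < ω) (hη : 0 < η) :
    ∃ (N : ℕ) (c : Fin N → X) (g gh : Fin N → C(X, ℝ)), (∀ a x, 0 ≤ g a x ∧ g a x ≤ 1) ∧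
      (∀ a x, 0 ≤ gh a x ∧ gh a x ≤ 1) ∧ (∀ a, gh a * g a = g a) ∧
      (∀ a b, a ≠ b → gh a * gh b = 0) ∧ (∀ a x, gh a x ≠ 0 → dist x (c a) < ω) ∧
      μ.real {x | ∀ a, g a x ≠ 1} < η := by
  classical
  obtain ⟨t, -, ht, hcov⟩ := (isCompact_univ (X := X)).finite_cover_balls hω
  lift t to Finset X using ht
  let e := t.equivFin
  set N := t.card with hN
  let c : Fin N → X := fun j => (e.symm j : X)
  have hcov' : ∀ x, ∃ j : Fin N, x ∈ Metric.ball (c j) ω := by
    intro x
    have hx := hcov (Set.mem_univ x)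
    simp only [Set.mem_iUnion, exists_prop] at hx
    obtain ⟨y, hy, hxy⟩ := hx
    exact ⟨e ⟨y, hy⟩, by simpa [c] using hxy⟩
  let E : Fin N → Set X := fun j => Metric.ball (c j) ω \ ⋃ i, ⋃ _ : i < j, Metric.ball (c i) ω
  have hEm : ∀ j, MeasurableSet (E j) := fun j => by
    refine measurableSet_ball.diff (MeasurableSet.iUnion fun i => MeasurableSet.iUnion fun _ =>
      measurableSet_ball)
  have hEd : ∀ a b, a < b → Disjoint (E a) (E b) := by
    intro a b hab
    rw [Set.disjoint_left]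
    intro x hxa hxb
    apply hxb.2
    simp only [Set.mem_iUnion]
    exact ⟨a, hab, hxa.1⟩
  have hEc : ∀ x, ∃ j, x ∈ E j := by
    intro x
    let S : Finset (Fin N) := Finset.univ.filter fun j => x ∈ Metric.ball (c j) ω
    have hS : S.Nonempty := by
      obtain ⟨j, hj⟩ := hcov' x
      exact ⟨j, by simp [S, Metric.mem_ball.1 hj]⟩
    refine ⟨S.min' hS, ?_, ?_⟩
    · have := S.min'_mem hS
      simpa [S] using this
    · simp only [Set.mem_iUnion, not_exists]
      intro i hi hx
      have h1 : i ∈ S := by simpa [S] using hx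
      exact absurd (S.min'_le i h1) (not_le.2 hi)
  have hε : ENNReal.ofReal (η / (N + 1)) ≠ 0 := by
    rw [Ne, ENNReal.ofReal_eq_zero, not_le]
    positivity
  have hK : ∀ j, ∃ K ⊆ E j, IsCompact K ∧ μ (E j \ K) < ENNReal.ofReal (η / (N + 1)) :=
    fun j => (hEm j).exists_isCompact_diff_lt (measure_ne_top μ _) hε
  choose K hKE hKc hKm using hK
  obtain ⟨g, gh, h1, h2, h3, h4, h5, h6⟩ := cells0 K (fun j => Metric.ball (c j) ω) hKc
    (fun a b hab => by
      rcases lt_or_gt_of_ne hab with h | h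
      · exact (hEd a b h).mono (hKE a) (hKE b)
      · exact ((hEd b a h).mono (hKE b) (hKE a)).symm)
    (fun j => Metric.isOpen_ball) (fun j => (hKE j).trans Set.sdiff_subset)
  refine ⟨N, c, g, gh, h1, h2, h4, h5, h6, ?_⟩
  have hsub : {x | ∀ a, g a x ≠ 1} ⊆ ⋃ j, E j \ K j := by
    intro x hx
    obtain ⟨j, hj⟩ := hEc x
    exact Set.mem_iUnion.2 ⟨j, hj, fun hxK => hx j (h3 j x hxK)⟩
  have hle : μ.real {x | ∀ a, g a x ≠ 1} ≤ ∑ j : Fin N, η / (N + 1) := by
    calc μ.real {x | ∀ a, g a x ≠ 1} ≤ μ.real (⋃ j, E j \ K j) := measureReal_mono hsub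
      _ ≤ ∑ j : Fin N, μ.real (E j \ K j) := measureReal_iUnion_fintype_le _
      _ ≤ ∑ j : Fin N, η / (N + 1) := by
          refine Finset.sum_le_sum fun j _ => ?_
          exact (ENNReal.toReal_le_of_le_ofReal (by positivity) (hKm j).le)
  refine hle.trans_lt ?_
  rw [Finset.sum_const, Finset.card_univ, Fintype.card_fin, nsmul_eq_mul]
  have hN1 : (0 : ℝ) < N + 1 := by positivity
  rw [← mul_div_assoc, div_lt_iff₀ hN1]
  nlinarith

end cells

end Pool.Agent.S71.UQ
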