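import Pool.Agent.S71.UQ.Alg
import Pool.Agent.S71.UQ.Cells

/-! The matching lemma. -/

set_option autoImplicit false

open Filter Topology MeasureTheory

noncomputable section

namespace Pool.Agent.S71.UQ

open Pool.Agent.N300.UN

/-- comparison: `χ(f)` is Cuntz below `χ'(g)` if the support of `f` has smaller measure than the
support of `g` -/
def Cmp {X : Type} [TopologicalSpace X] [MeasurableSpace X] {A : Type} [CStarAlgebra A]
    (μ : Measure X) (χ χ' : C(X, ℂ) →⋆ₐ[ℂ] A) : Prop :=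
  ∀ f g : C(X, ℝ), (∀ x, 0 ≤ f x) → (∀ x, 0 ≤ g x) → μ.real {x | 0 < f x} < μ.real {x | 0 < g x} →
    ∀ ε : ℝ, 0 < ε → ∃ v : A, ‖v * χ' (cxf g) * star v - χ (cxf f)‖ < ε

/-- invertible elements are dense -/
def SR (A : Type) [CStarAlgebra A] : Prop := ∀ (x : A) (ε : ℝ), 0 < ε → ∃ y : A, IsUnit y ∧
  ‖x - y‖ < ε

theorem norm_unitary_le {A : Type} [CStarAlgebra A] (u : unitary A) : ‖(u : A)‖ ≤ 1 := by
  have h1 : ‖(u : A)‖ * ‖(u : A)‖ ≤ 1 := by
    rw [← CStarRing.norm_star_mul_self, Unitary.coe_star_mul_self]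
    rcases subsingleton_or_nontrivial A with h | h
    · rw [Subsingleton.elim (1 : A) 0, norm_zero]; exact zero_le_one
    · rw [norm_one]
  nlinarith [norm_nonneg (u : A)]

/-- the function `0` up to `1/2`, `1` from `3/4` on -/
def G1 (s : ℝ) : ℝ := min 1 (max 0 (4 * s - 2))

/-- the function `0` up to `3/4` -/
def G2 (s : ℝ) : ℝ := max 0 (4 * s - 3)

theorem G1_cont : Continuous G1 := by unfold G1; fun_prop
theorem G2_cont : Continuous G2 := by unfold G2; fun_prop
theorem G1_01 (s : ℝ) : 0 ≤ G1 s ∧ G1 s ≤ 1 :=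
  ⟨le_min zero_le_one (le_max_left _ _), min_le_left _ _⟩
theorem G2_0 (s : ℝ) : 0 ≤ G2 s := le_max_left _ _
theorem G1_pos {s : ℝ} : 0 < G1 s ↔ 1 / 2 < s := by
  unfold G1
  rw [lt_min_iff, lt_max_iff]
  constructor
  · rintro ⟨-, h | h⟩
    · exact absurd h (lt_irrefl _)
    · linarith
  · intro h
    exact ⟨one_pos, Or.inr (by linarith)⟩
theorem G1_zero : G1 0 = 0 := by unfold G1; norm_num
theorem G2_zero : G2 0 = 0 := by unfold G2; norm_num
theorem G1_one {s : ℝ} (h : 3 / 4 ≤ s) : G1 s = 1 := by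
  unfold G1
  rw [min_eq_left]
  exact le_max_of_le_right (by linarith)
theorem G2_pos {s : ℝ} : 0 < G2 s ↔ 3 / 4 < s := by
  unfold G2
  rw [lt_max_iff]
  constructor
  · rintro (h | h)
    · exact absurd h (lt_irrefl _)
    · linarith
  · intro h; exact Or.inr (by linarith)

/-- composition with a real function -/
def cp {X : Type} [TopologicalSpace X] (G : ℝ → ℝ) (hG : Continuous G) (f : C(X, ℝ)) : C(X, ℝ) :=
  ⟨fun x => G (f x), by fun_prop⟩

section fam

variable {X : Type} [TopologicalSpace X] {N : ℕ} {g gh : Fin N → C(X, ℝ)}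

theorem fam_one (h1 : ∀ a, gh a * g a = g a) {a : Fin N} {x : X} (hx : g a x ≠ 0) : gh a x = 1 := by
  have := DFunLike.congr_fun (h1 a) x
  rw [ContinuousMap.mul_apply] at this
  exact mul_right_cancel₀ hx (by rw [this, one_mul])

theorem fam_zero (h1 : ∀ a, gh a * g a = g a) (h2 : ∀ a b, a ≠ b → gh a * gh b = 0)
    {a b : Fin N} (hab : b ≠ a) {x : X} (hx : gh a x ≠ 0) : gh b x = 0 ∧ g b x = 0 := by
  have h3 := DFunLike.congr_fun (h2 a b hab.symm) x
  rw [ContinuousMap.mul_apply, ContinuousMap.zero_apply] at h3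
  have h4 : gh b x = 0 := by
    rcases mul_eq_zero.1 h3 with h | h
    · exact absurd h hx
    · exact h
  refine ⟨h4, ?_⟩
  have := DFunLike.congr_fun (h1 b) x
  rw [ContinuousMap.mul_apply, h4, zero_mul] at this
  exact this.symm

theorem fam_ghne (h1 : ∀ a, gh a * g a = g a) {a : Fin N} {x : X} (hx : g a x ≠ 0) : gh a x ≠ 0 := by
  rw [fam_one h1 hx]; exact one_ne_zero

/-- sums over the family have at most one nonzero term -/
theorem fam_sum (h1 : ∀ a, gh a * g a = g a) (h2 : ∀ a b, a ≠ b → gh a * gh b = 0)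
    (F : Fin N → ℝ → ℝ) (hF : ∀ a, F a 0 = 0) {a : Fin N} {x : X} (hx : gh a x ≠ 0) :
    ∑ b, F b (g b x) = F a (g a x) := by
  refine Finset.sum_eq_single a (fun b _ hb => ?_) fun h => absurd (Finset.mem_univ _) h
  rw [(fam_zero h1 h2 hb hx).2, hF]

theorem fam_sum0 (h1 : ∀ a, gh a * g a = g a) (F : Fin N → ℝ → ℝ) (hF : ∀ a, F a 0 = 0) {x : X}
    (hx : ∀ a, gh a x = 0) : ∑ b, F b (g b x) = 0 := by
  refine Finset.sum_eq_zero fun b _ => ?_
  have := DFunLike.congr_fun (h1 b) x
  rw [ContinuousMap.mul_apply, hx b, zero_mul] at this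
  rw [← this, hF]

end fam

section pieces

variable {X : Type} [MetricSpace X] [CompactSpace X] [PreconnectedSpace X] [MeasurableSpace X]
  [BorelSpace X] {A : Type} [CStarAlgebra A] (μ : Measure X) [IsProbabilityMeasure μ]

theorem piece (hfull : ∀ U : Set X, IsOpen U → U.Nonempty → 0 < μ.real U)
    (φ ψ : C(X, ℂ) →⋆ₐ[ℂ] A) (hc : Cmp μ φ ψ) (g gh : C(X, ℝ)) (hg : ∀ x, 0 ≤ g x ∧ g x ≤ 1)
    (hgh : gh * g = g) (h0 : ∃ x, g x = 0) (ε : ℝ) (hε : 0 < ε) :
    ∃ y : A, ‖star y * y - φ (cxf (cp G1 G1_cont g * cp G1 G1_cont g))‖ < ε ∧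
      ψ (cxf gh) * y = y := by
  by_cases hz : ∃ x, 0 < cp G1 G1_cont g x
  · obtain ⟨x1, hx1⟩ := hz
    have hx1' : 1 / 2 < g x1 := G1_pos.1 hx1
    obtain ⟨x0, hx0⟩ := h0
    obtain ⟨x2, hx2⟩ : (1 / 4 : ℝ) ∈ Set.range g :=
      mem_range_of_exists_le_of_exists_ge g.continuous ⟨x0, by rw [hx0]; norm_num⟩
        ⟨x1, by linarith⟩
    have hV : 0 < μ.real {x | 0 < g x ∧ g x < 1 / 2} := by
      refine hfull _ ?_ ⟨x2, by change 0 < g x2 ∧ g x2 < 1 / 2; rw [hx2]; norm_num⟩
      exact (isOpen_lt continuous_const g.continuous).inter (isOpen_lt g.continuous continuous_const)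
    have hlt : μ.real {x | 0 < (cp G1 G1_cont g * cp G1 G1_cont g) x} < μ.real {x | 0 < g x} := by
      have e1 : {x | 0 < (cp G1 G1_cont g * cp G1 G1_cont g) x} = {x | 1 / 2 < g x} := by
        ext x
        rw [Set.mem_ofPred_eq, Set.mem_ofPred_eq, ContinuousMap.mul_apply]
        change 0 < G1 (g x) * G1 (g x) ↔ _
        rw [← G1_pos]
        constructor
        · intro h
          exact lt_of_le_of_ne (G1_01 _).1 fun h' => by rw [← h', mul_zero] at h; exact lt_irrefl _ h
        · intro h; exact mul_pos h h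
      rw [e1]
      have hm1 : MeasurableSet {x | 1 / 2 < g x} :=
        (isOpen_lt continuous_const g.continuous).measurableSet
      have hd : Disjoint {x | 0 < g x ∧ g x < 1 / 2} {x | 1 / 2 < g x} := by
        rw [Set.disjoint_left]
        intro x hx hx'
        exact absurd hx.2 (not_lt.2 (le_of_lt hx'))
      have h3 := measureReal_union (μ := μ) hd hm1
      have h4 : μ.real ({x | 0 < g x ∧ g x < 1 / 2} ∪ {x | 1 / 2 < g x}) ≤ μ.real {x | 0 < g x} := by
        refine measureReal_mono ?_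
        rintro x (hx | hx)
        · exact hx.1
        · exact lt_trans (show (0 : ℝ) < 1 / 2 by norm_num) hx
      rw [h3] at h4
      linarith
    obtain ⟨v, hv⟩ := hc _ g (fun x => mul_self_nonneg _) (fun x => (hg x).1) hlt ε hε
    refine ⟨ψ (cxf (sq g)) * star v, ?_, ?_⟩
    · rw [star_mul, star_star, ← map_star, star_cxf]
      have : v * ψ (cxf (sq g)) * (ψ (cxf (sq g)) * star v) = v * ψ (cxf g) * star v := by
        rw [mul_assoc, ← mul_assoc (ψ _) (ψ _), ← map_mul, ← cxf_mul, sq_mul_sq g fun x => (hg x).1,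
          mul_assoc]
      rw [this]
      exact hv
    · rw [← mul_assoc, ← map_mul, ← cxf_mul]
      congr 3
      ext x
      rw [ContinuousMap.mul_apply, sq_apply]
      by_cases hx : g x = 0
      · rw [hx, Real.sqrt_zero, mul_zero]
      · have := DFunLike.congr_fun hgh x
        rw [ContinuousMap.mul_apply] at this
        rw [mul_right_cancel₀ hx (by rw [this, one_mul] : gh x * g x = 1 * g x), one_mul]
  · push Not at hz
    have e1 : cp G1 G1_cont g = 0 := by
      ext x
      exact le_antisymm (hz x) (G1_01 _).1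
    refine ⟨0, ?_, mul_zero _⟩
    rw [e1, mul_zero, mul_zero, cxf_zero, map_zero, sub_zero, norm_zero]
    exact hε

end pieces

section main

variable {X : Type} [MetricSpace X] [CompactSpace X] [PreconnectedSpace X] [MeasurableSpace X]
  [BorelSpace X] {A : Type} [CStarAlgebra A] (μ : Measure X) [IsProbabilityMeasure μ]

theorem lemW (hfull : ∀ U : Set X, IsOpen U → U.Nonempty → 0 < μ.real U)
    (hX : ∃ p q : X, 1 ≤ dist p q) (hSR : SR A)
    (φ ψ : C(X, ℂ) →⋆ₐ[ℂ] A) (hc : Cmp μ φ ψ) (F : Finset C(X, ℂ)) (η ε : ℝ) (hη : 0 < η)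
    (hε : 0 < ε) :
    ∃ (k L : C(X, ℝ)) (w : unitary A), (∀ x, 0 ≤ k x ∧ k x ≤ 1) ∧ (∀ x, 0 ≤ L x) ∧
      (∀ x, 0 < L x → k x = 1) ∧ μ.real {x | L x = 0} < η ∧
      ∀ f ∈ F, ‖((w : A) * ψ f * star (w : A) - φ f) * φ (cxf k)‖ < ε := by
  classical
  -- scale
  have hunif : ∀ f : C(X, ℂ), ∃ ω : ℝ, 0 < ω ∧ ∀ x y, dist x y < ω → ‖f x - f y‖ < ε / 8 := by
    intro f
    have h1 := CompactSpace.uniformContinuous_of_continuous f.continuous
    rw [Metric.uniformContinuous_iff] at h1
    obtain ⟨δ, hδ, h2⟩ := h1 (ε / 8) (by positivity)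
    exact ⟨δ, hδ, fun x y hxy => by rw [← dist_eq_norm]; exact h2 hxy⟩
  choose om hom hom' using hunif
  obtain ⟨ω, hω, hω2, hωF⟩ : ∃ ω : ℝ, 0 < ω ∧ ω ≤ 1 / 2 ∧ ∀ f ∈ F, ω ≤ om f := by
    rcases F.eq_empty_or_nonempty with hF | hF
    · exact ⟨1 / 2, by norm_num, le_rfl, by simp [hF]⟩
    · obtain ⟨f0, -, hf0'⟩ := Finset.exists_min_image F om hF
      exact ⟨min (1 / 2) (om f0), lt_min (by norm_num) (hom f0), min_le_left _ _,
        fun f hf => (min_le_right _ _).trans (hf0' f hf)⟩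
  obtain ⟨N, c, g, gh, hg, hgh, hgg, hgd, hgs, hgm⟩ := cells (X := X) μ hω hη
  have hg0 : ∀ a, ∃ x, g a x = 0 := by
    intro a
    by_contra hcon
    push Not at hcon
    have h1 : ∀ x, dist x (c a) < ω := fun x => hgs a x (fam_ghne hgg (hcon x))
    obtain ⟨p, q, hpq⟩ := hX
    have := dist_triangle_right p q (c a)
    have h2 := h1 p
    have h3 := h1 q
    linarith
  set ga : Fin N → C(X, ℝ) := fun a => cp G1 G1_cont (g a) with hga
  set k : C(X, ℝ) := ∑ a, ga a with hk
  set Lf : C(X, ℝ) := ∑ a, cp G2 G2_cont (g a) with hLf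
  have hkx : ∀ x, k x = ∑ a, G1 (g a x) := fun x => by
    rw [hk, ContinuousMap.sum_apply]; rfl
  have hLx : ∀ x, Lf x = ∑ a, G2 (g a x) := fun x => by
    rw [hLf, ContinuousMap.sum_apply]; rfl
  have hcase : ∀ x, (∃ a, gh a x ≠ 0) ∨ ∀ a, gh a x = 0 := fun x => by
    by_cases h : ∃ a, gh a x ≠ 0
    · exact Or.inl h
    · push Not at h; exact Or.inr h
  have hk01 : ∀ x, 0 ≤ k x ∧ k x ≤ 1 := by
    intro x
    rw [hkx]
    rcases hcase x with ⟨a, ha⟩ | h
    · rw [fam_sum hgg hgd (fun _ => G1) (fun _ => G1_zero) ha]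
      exact G1_01 _
    · rw [fam_sum0 hgg (fun _ => G1) (fun _ => G1_zero) h]
      exact ⟨le_rfl, zero_le_one⟩
  have hL0 : ∀ x, 0 ≤ Lf x := fun x => by
    rw [hLx]; exact Finset.sum_nonneg fun a _ => G2_0 _
  have hLk : ∀ x, 0 < Lf x → k x = 1 := by
    intro x hx
    rw [hLx] at hx
    rw [hkx]
    rcases hcase x with ⟨a, ha⟩ | h
    · rw [fam_sum hgg hgd (fun _ => G2) (fun _ => G2_zero) ha] at hx
      rw [fam_sum hgg hgd (fun _ => G1) (fun _ => G1_zero) ha]
      exact G1_one (G2_pos.1 hx).le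
    · rw [fam_sum0 hgg (fun _ => G2) (fun _ => G2_zero) h] at hx
      exact absurd hx (lt_irrefl _)
  have hLm : μ.real {x | Lf x = 0} < η := by
    refine lt_of_le_of_lt (measureReal_mono ?_) hgm
    intro x hx a hax
    have hx' : Lf x = 0 := hx
    rw [hLx] at hx'
    have h1 := (Finset.sum_eq_zero_iff_of_nonneg fun a _ => G2_0 (g a x)).1 hx' a (Finset.mem_univ _)
    have h2 : 0 < G2 (g a x) := G2_pos.2 (by rw [hax]; norm_num)
    rw [h1] at h2
    exact lt_irrefl _ h2
  -- the sequence algebra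
  obtain ⟨L, Q, _, _, ev, pr, cs, lf, ext, hlt, hle, hcs⟩ := seqAlg A
  have hy := fun (a : Fin N) (m : ℕ) => piece μ hfull φ ψ hc (g a) (gh a) (hg a) (hgg a) (hg0 a)
    (1 / ((m : ℝ) + 1)) (by positivity)
  choose y hy1 hy2 using hy
  have hyb : ∀ a, ∃ C : ℝ, ∀ m, ‖y a m‖ ≤ C := by
    intro a
    refine ⟨‖φ (cxf (ga a * ga a))‖ + 1 + 1, fun m => ?_⟩
    have h1 : ‖y a m‖ * ‖y a m‖ ≤ ‖φ (cxf (ga a * ga a))‖ + 1 := by
      rw [← CStarRing.norm_star_mul_self]
      have h2 := norm_le_norm_add_norm_sub' (star (y a m) * y a m) (φ (cxf (ga a * ga a)))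
      have h3 : (1 : ℝ) / ((m : ℝ) + 1) ≤ 1 := by
        rw [div_le_one (by positivity)]
        have : (0 : ℝ) ≤ m := by positivity
        linarith
      have h4 := (hy1 a m).le
      linarith
    nlinarith [norm_nonneg (y a m), norm_nonneg (φ (cxf (ga a * ga a)))]
  choose Y hY using fun a => lf (y a) (hyb a)
  set ι : A →⋆ₐ[ℂ] Q := pr.comp cs with hι
  have hιa : ∀ b, ι b = pr (cs b) := fun b => rfl
  have hYY : ∀ a, star (pr (Y a)) * pr (Y a) = ι (φ (cxf (ga a * ga a))) := by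
    intro a
    rw [← map_star, ← map_mul, hιa]
    refine eq_of ev pr hle _ _ 1 fun m => ?_
    rw [map_mul, map_star, hY, hcs, one_mul]
    exact (hy1 a m).le
  have hψY : ∀ a, cs (ψ (cxf (gh a))) * Y a = Y a := fun a => ext _ _ fun m => by
    rw [map_mul, hcs, hY, hy2]
  have hYY0 : ∀ a b, a ≠ b → star (pr (Y a)) * pr (Y b) = 0 := by
    intro a b hab
    have h1 : star (Y a) * Y b = 0 := by
      rw [← hψY a, ← hψY b, star_mul, ← map_star, ← map_star, star_cxf, mul_assoc,
        ← mul_assoc (cs _) (cs _), ← map_mul, ← map_mul, ← cxf_mul, hgd a b hab, cxf_zero, map_zero,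
        map_zero, zero_mul, mul_zero]
    rw [← map_star, ← map_mul, h1, map_zero]
  set T : Q := ∑ a, pr (Y a) with hT
  have hkk : k * k = ∑ a, ga a * ga a := by
    ext x
    rw [ContinuousMap.mul_apply, hkx, ContinuousMap.sum_apply]
    change _ = ∑ a, G1 (g a x) * G1 (g a x)
    rcases hcase x with ⟨a, ha⟩ | h
    · rw [fam_sum hgg hgd (fun _ => G1) (fun _ => G1_zero) ha,
        fam_sum hgg hgd (fun _ s => G1 s * G1 s) (fun _ => by rw [G1_zero, mul_zero]) ha]
    · rw [fam_sum0 hgg (fun _ => G1) (fun _ => G1_zero) h,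
        fam_sum0 hgg (fun _ s => G1 s * G1 s) (fun _ => by rw [G1_zero, mul_zero]) h, mul_zero]
  have hcxsum : ∀ F : Fin N → C(X, ℝ), cxf (∑ a, F a) = ∑ a, cxf (F a) := by
    intro F
    ext x
    simp [ContinuousMap.sum_apply]
  have hTT : star T * T = ι (φ (cxf (k * k))) := by
    rw [hkk, hcxsum, map_sum, map_sum, hT, star_sum, Finset.sum_mul_sum]
    refine Finset.sum_congr rfl fun a _ => ?_
    rw [← hYY a]
    exact Finset.sum_eq_single a (fun b _ hb => hYY0 a b hb.symm)
      fun h => absurd (Finset.mem_univ _) h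
  -- polar decomposition
  have hT' : ∀ m : ℕ, ∃ T' : A, IsUnit T' ∧ ‖(∑ a, y a m) - T'‖ < 1 / ((m : ℝ) + 1) :=
    fun m => hSR _ _ (by positivity)
  choose T' hT'u hT'n using hT'
  choose u z hu hz1 hz2 using fun m => polar_unit (T' m) (hT'u m)
  obtain ⟨Cy, hCy⟩ : ∃ C : ℝ, ∀ m, ‖∑ a, y a m‖ ≤ C := by
    choose C hC using hyb
    exact ⟨∑ a, C a, fun m => (norm_sum_le _ _).trans (Finset.sum_le_sum fun a _ => hC a m)⟩
  have hT'b : ∀ m, ‖T' m‖ ≤ Cy + 1 := by
    intro m
    have h1 := norm_le_norm_add_norm_sub (∑ a, y a m) (T' m)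
    have h3 : (1 : ℝ) / ((m : ℝ) + 1) ≤ 1 := by
      rw [div_le_one (by positivity)]
      have : (0 : ℝ) ≤ m := by positivity
      linarith
    linarith [hCy m, (hT'n m).le]
  obtain ⟨U, hU⟩ := lf (fun m => (u m : A)) ⟨1, fun m => norm_unitary_le _⟩
  obtain ⟨Z, hZ⟩ := lf z ⟨Cy + 1 + 1, fun m => by
    have h1 := hz2 m
    have h2 := hT'b m
    nlinarith [norm_nonneg (z m), norm_nonneg (T' m)]⟩
  have hUU : star (pr U) * pr U = 1 := by
    have h1 : star U * U = 1 := ext _ _ fun m => by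
      rw [map_mul, map_star, hU, map_one]; exact Unitary.coe_star_mul_self _
    rw [← map_star, ← map_mul, h1, map_one]
  have hTU : T = pr U * (star (pr Z) * pr Z) := by
    rw [hT, ← map_sum, ← map_star, ← map_mul, ← map_mul]
    refine eq_of ev pr hle _ _ 1 fun m => ?_
    rw [map_mul, map_mul, map_star, map_sum, hU, hZ, ← hu, one_mul]
    simp only [hY]
    exact (hT'n m).le
  have hZk : star (pr Z) * pr Z = ι (φ (cxf k)) := by
    have e1 : ι (φ (cxf k)) = star (ι (φ (cxf (sq k)))) * ι (φ (cxf (sq k))) := by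
      rw [← map_star, ← map_mul, ← map_star, star_cxf, ← map_mul, ← cxf_mul,
        sq_mul_sq k fun x => (hk01 x).1]
    rw [e1]
    refine psq_unique _ _ ?_
    rw [← e1, ← map_mul, ← map_mul, ← cxf_mul, ← hTT, hTU, star_mul]
    have e2 : star (star (pr Z) * pr Z) = star (pr Z) * pr Z := by rw [star_mul, star_star]
    rw [e2]
    calc star (pr Z) * pr Z * (star (pr Z) * pr Z)
        = star (pr Z) * pr Z * (star (pr U) * pr U) * (star (pr Z) * pr Z) := by
          rw [hUU, mul_one]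
      _ = _ := by simp only [mul_assoc]
  have hTk : T = pr U * ι (φ (cxf k)) := by rw [hTU, hZk]
  -- the intertwining estimate
  have hest : ∀ f ∈ F, ‖(star (pr U) * ι (ψ f) * pr U - ι (φ f)) * ι (φ (cxf k))‖ < ε := by
    intro f hf
    let D : C(X, ℂ) := ∑ a, (f - algebraMap ℂ C(X, ℂ) (f (c a))) * cxf (gh a)
    have hDn : ‖D‖ ≤ ε / 8 := by
      rw [ContinuousMap.norm_le _ (by positivity)]
      intro x
      have hDx : D x = ∑ a, (f x - f (c a)) * (gh a x : ℂ) := by
        simp only [D, ContinuousMap.sum_apply, ContinuousMap.mul_apply, ContinuousMap.sub_apply,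
          cxf_apply]
        rfl
      rw [hDx]
      rcases hcase x with ⟨a, ha⟩ | h
      · rw [Finset.sum_eq_single a (fun b _ hb => by
          rw [(fam_zero hgg hgd hb ha).1, Complex.ofReal_zero, mul_zero])
          fun h => absurd (Finset.mem_univ _) h]
        rw [norm_mul, Complex.norm_real, Real.norm_eq_abs, abs_of_nonneg (hgh a x).1]
        have h1 := (hom' f x (c a) ((hgs a x ha).trans_le (hωF f hf))).le
        calc ‖f x - f (c a)‖ * gh a x ≤ ε / 8 * 1 :=
              mul_le_mul h1 (hgh a x).2 (hgh a x).1 (by positivity)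
          _ = ε / 8 := mul_one _
      · rw [Finset.sum_eq_zero fun b _ => by rw [h b, Complex.ofReal_zero, mul_zero], norm_zero]
        positivity
    have hDgh : ∀ a, D * cxf (gh a) =
        (f - algebraMap ℂ C(X, ℂ) (f (c a))) * (cxf (gh a) * cxf (gh a)) := by
      intro a
      simp only [D]
      rw [Finset.sum_mul, Finset.sum_eq_single a (fun b _ hb => by
        rw [mul_assoc, ← cxf_mul, hgd b a hb, cxf_zero, mul_zero])
        fun h => absurd (Finset.mem_univ _) h, mul_assoc]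
    -- left
    have hl1 : ∀ a, ι (ψ (cxf (gh a))) * pr (Y a) = pr (Y a) := fun a => by
      rw [hιa, ← map_mul, hψY]
    have hl2 : ∀ a, ι (ψ f) * pr (Y a) = f (c a) • pr (Y a) + ι (ψ D) * pr (Y a) := by
      intro a
      have e1 : ι (ψ D) * pr (Y a) = ι (ψ (f - algebraMap ℂ C(X, ℂ) (f (c a)))) * pr (Y a) := by
        conv_lhs => rw [← hl1 a, ← mul_assoc, ← map_mul, ← map_mul, hDgh, map_mul, map_mul, map_mul,
          map_mul, mul_assoc, mul_assoc, hl1, hl1]
      rw [e1, map_sub, map_sub, sub_mul, AlgHomClass.commutes, AlgHomClass.commutes,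
        ← Algebra.smul_def]
      abel
    have hr1 : ∀ a, pr (Y a) * ι (φ (cxf (gh a))) = pr (Y a) := by
      intro a
      have e1 : pr (Y a) - pr (Y a) * ι (φ (cxf (gh a))) = 0 := by
        rw [← norm_eq_zero, ← mul_self_eq_zero, ← CStarRing.norm_star_mul_self]
        have e2 : pr (Y a) - pr (Y a) * ι (φ (cxf (gh a))) =
            pr (Y a) * ι (φ (cxf (1 - gh a))) := by
          rw [cxf_sub, cxf_one, map_sub, map_sub, map_one, map_one, mul_sub, mul_one]
        have e3 : (ga a * ga a) * (1 - gh a) = 0 := by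
          ext x
          rw [ContinuousMap.mul_apply, ContinuousMap.mul_apply, ContinuousMap.sub_apply,
            ContinuousMap.one_apply, ContinuousMap.zero_apply]
          by_cases hx : g a x = 0
          · have : ga a x = 0 := by change G1 (g a x) = 0; rw [hx, G1_zero]
            rw [this, zero_mul, zero_mul]
          · rw [fam_one hgg hx, sub_self, mul_zero]
        rw [e2, star_mul, mul_assoc, ← mul_assoc (star (pr (Y a))), hYY, ← map_mul, ← map_mul,
          ← cxf_mul, e3, cxf_zero, map_zero, map_zero, mul_zero, norm_zero]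
      exact (sub_eq_zero.1 e1).symm
    have hr2 : ∀ a, pr (Y a) * ι (φ f) = f (c a) • pr (Y a) + pr (Y a) * ι (φ D) := by
      intro a
      have e1 : pr (Y a) * ι (φ D) = pr (Y a) * ι (φ (f - algebraMap ℂ C(X, ℂ) (f (c a)))) := by
        have e2 : cxf (gh a) * D = cxf (gh a) * (cxf (gh a) *
            (f - algebraMap ℂ C(X, ℂ) (f (c a)))) := by
          rw [mul_comm (cxf (gh a)) D, hDgh]
          ring
        conv_lhs => rw [← hr1 a, mul_assoc, ← map_mul, ← map_mul, e2, map_mul, map_mul, map_mul,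
          map_mul, ← mul_assoc, ← mul_assoc, hr1, hr1]
      rw [e1, map_sub, map_sub, mul_sub, AlgHomClass.commutes, AlgHomClass.commutes,
        ← Algebra.commutes, ← Algebra.smul_def]
      abel
    have e4 : ι (ψ f) * T - T * ι (φ f) = ι (ψ D) * T - T * ι (φ D) := by
      rw [hT, Finset.mul_sum, Finset.sum_mul, Finset.mul_sum, Finset.sum_mul, ← Finset.sum_sub_distrib,
        ← Finset.sum_sub_distrib]
      refine Finset.sum_congr rfl fun a _ => ?_
      rw [hl2, hr2]
      abel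
    have hTn : ‖T‖ ≤ 1 := by
      have h1 : ‖T‖ * ‖T‖ ≤ 1 := by
        rw [← CStarRing.norm_star_mul_self, hTT]
        refine (NonUnitalStarAlgHom.norm_apply_le ι _).trans
          ((NonUnitalStarAlgHom.norm_apply_le φ _).trans ?_)
        rw [ContinuousMap.norm_le _ zero_le_one]
        intro x
        rw [cxf_apply, Complex.norm_real, ContinuousMap.mul_apply, Real.norm_eq_abs,
          abs_of_nonneg (mul_self_nonneg _)]
        exact mul_le_one₀ (hk01 x).2 (hk01 x).1 (hk01 x).2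
      nlinarith [norm_nonneg T]
    have hφD : ‖ι (φ D)‖ ≤ ε / 8 := (NonUnitalStarAlgHom.norm_apply_le ι _).trans
      ((NonUnitalStarAlgHom.norm_apply_le φ _).trans hDn)
    have hψD : ‖ι (ψ D)‖ ≤ ε / 8 := (NonUnitalStarAlgHom.norm_apply_le ι _).trans
      ((NonUnitalStarAlgHom.norm_apply_le ψ _).trans hDn)
    have e5 : (star (pr U) * ι (ψ f) * pr U - ι (φ f)) * ι (φ (cxf k)) =
        star (pr U) * (ι (ψ f) * T - T * ι (φ f)) := by
      rw [hTk, mul_sub, sub_mul]
      congr 1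
      · simp only [mul_assoc]
      · rw [mul_assoc (pr U), ← mul_assoc (star (pr U)), hUU, one_mul, ← map_mul, ← map_mul,
          ← map_mul, ← map_mul, mul_comm]
    have hUn : ‖star (pr U)‖ ≤ 1 := by
      rw [norm_star]
      have h1 : ‖pr U‖ * ‖pr U‖ ≤ 1 := by
        rw [← CStarRing.norm_star_mul_self, hUU]
        rcases subsingleton_or_nontrivial Q with h | h
        · rw [Subsingleton.elim (1 : Q) 0, norm_zero]; exact zero_le_one
        · rw [norm_one]
      nlinarith [norm_nonneg (pr U)]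
    rw [e5, e4]
    calc ‖star (pr U) * (ι (ψ D) * T - T * ι (φ D))‖
        ≤ ‖star (pr U)‖ * ‖ι (ψ D) * T - T * ι (φ D)‖ := norm_mul_le _ _
      _ ≤ 1 * (ε / 8 * 1 + 1 * (ε / 8)) := by
          refine mul_le_mul hUn ?_ (norm_nonneg _) zero_le_one
          refine (norm_sub_le _ _).trans (add_le_add ?_ ?_)
          · exact (norm_mul_le _ _).trans (mul_le_mul hψD hTn (norm_nonneg _) (by positivity))
          · exact (norm_mul_le _ _).trans (mul_le_mul hTn hφD (norm_nonneg _) zero_le_one)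
      _ < ε := by linarith
  -- back to `A`
  have hfin : ∀ f ∈ F, ∀ᶠ m in atTop, ‖ev m ((star U * cs (ψ f) * U - cs (φ f)) *
      cs (φ (cxf k)))‖ < ε := by
    intro f hf
    refine hlt _ _ ?_
    have := hest f hf
    rwa [hιa, hιa, hιa, ← map_star, ← map_mul, ← map_mul, ← map_sub, ← map_mul] at this
  obtain ⟨m, hm⟩ := ((Finset.eventually_all F).2 hfin).exists
  refine ⟨k, Lf, star (u m), hk01, hL0, hLk, hLm, fun f hf => ?_⟩
  have := hm f hf
  rw [map_mul, map_sub, map_mul, map_mul, map_star, hU, hcs, hcs, hcs] at this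
  rw [Unitary.coe_star, star_star]
  exact this

end main

end Pool.Agent.S71.UQ
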