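import Pool.Agent.N300.UN.TCORE0
import Pool.Agent.S71.UQ.LemW

/-! The block elements `R i` (computation in a C*-algebra with exact relations). -/

set_option autoImplicit false

open Filter Topology MeasureTheory

noncomputable section

namespace Pool.Agent.S71.UQ

open Pool.Agent.N300.UN
open Pool.Agent.N300.UN.T_CORE0 (tc bs site_eq)

section cfcf

theorem map_cfc' {A B : Type} [CStarAlgebra A] [CStarAlgebra B] (π : A →⋆ₐ[ℂ] B) (F : ℝ → ℝ)
    (hF : Continuous F) {x : A} (hx : IsSelfAdjoint x) : π (cfc F x) = cfc F (π x) :=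
  StarAlgHomClass.map_cfc (R := ℝ) π F x hF.continuousOn (cont_hom π) hx (hx.map π)

theorem cfc_gen {A D : Type} [CStarAlgebra A] [CStarAlgebra D] (π : D →⋆ₐ[ℂ] A) {X : Type}
    (e : X → (D →⋆ₐ[ℂ] ℂ)) (he : ∀ d d', (∀ x, e x d = e x d') → d = d') (F : ℝ → ℝ)
    (hF : Continuous F) (g g' : D) (hg : IsSelfAdjoint g) (r : X → ℝ)
    (h1 : ∀ x, e x g = algebraMap ℝ ℂ (r x)) (h2 : ∀ x, e x g' = algebraMap ℝ ℂ (F (r x))) :
    cfc F (π g) = π g' := by
  have h3 : g' = cfc F g := by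
    apply he
    intro x
    rw [map_cfc' (e x) F hF hg, h1, cfc_algebraMap, h2]
  rw [h3, map_cfc' π F hF hg]

variable {X : Type} [TopologicalSpace X] [CompactSpace X]

theorem cfc_hom_cxf {A : Type} [CStarAlgebra A] (φ : C(X, ℂ) →⋆ₐ[ℂ] A) (G : ℝ → ℝ)
    (hG : Continuous G) (f : C(X, ℝ)) : cfc G (φ (cxf f)) = φ (cxf (cp G hG f)) :=
  cfc_gen φ (fun x : X => ContinuousMap.evalStarAlgHom ℂ ℂ x)
    (fun _ _ h => ContinuousMap.ext h) G hG (cxf f) (cxf (cp G hG f)) (star_cxf f)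
    (fun x => f x) (fun _ => rfl) (fun _ => rfl)

theorem spec_cxf {A : Type} [CStarAlgebra A] (φ : C(X, ℂ) →⋆ₐ[ℂ] A) (g : C(X, ℝ))
    (hg : ∀ x, 0 ≤ g x ∧ g x ≤ 1) : spectrum ℝ (φ (cxf g)) ⊆ Set.Icc 0 1 := by
  intro r hr
  rw [← spectrum.algebraMap_mem_iff ℂ] at hr
  have h1 := AlgHom.spectrum_apply_subset φ (cxf g) hr
  rw [ContinuousMap.spectrum_eq_range] at h1
  obtain ⟨t, ht⟩ := h1
  have h : g t = r := by
    have h1 : ((g t : ℝ) : ℂ) = ((r : ℝ) : ℂ) := ht
    exact_mod_cast h1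
  rw [← h]
  exact hg t

end cfcf

section col

variable {Q : Type} [CStarAlgebra Q]

theorem col_mul {ι κ : Type*} [Fintype ι] [Fintype κ] [DecidableEq ι] [DecidableEq κ]
    (y y' : ι → κ → Q) (d : Q) (X X' : ι → Q) (S S' : κ → Q)
    (hy : ∀ a b a' b', star (y a b) * y' a' b' = if a = a' ∧ b = b' then d else 0)
    (hX : ∀ a, star (X a) = X a) (hS : ∀ b, star (S b) = S b)
    (hXd : ∀ a, Commute (X a) d) (hSd : ∀ b, Commute (S b) d)
    (hSX : ∀ a b, Commute (S b) (X a)) (hSX' : ∀ a b, Commute (S b) (X' a)) :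
    star (∑ a, ∑ b, y a b * X a * S b) * (∑ a, ∑ b, y' a b * X' a * S' b) =
      d * (∑ a, X a * X' a) * ∑ b, S b * S' b := by
  have e1 : ∀ a b a' b', star (y a b * X a * S b) * (y' a' b' * X' a' * S' b') =
      if a = a' ∧ b = b' then d * (X a * X' a) * (S b * S' b) else 0 := by
    intro a b a' b'
    have e2 : star (y a b * X a * S b) * (y' a' b' * X' a' * S' b') =
        S b * (X a * (star (y a b) * y' a' b') * X' a') * S' b' := by
      rw [star_mul, star_mul, hX, hS]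
      simp only [mul_assoc]
    rw [e2, hy]
    split_ifs with h
    · obtain ⟨rfl, rfl⟩ := h
      have h1 : Commute (S b) (X a * d * X' a) := ((hSX a b).mul_right (hSd b)).mul_right (hSX' a b)
      rw [h1.eq, (hXd a).eq]
      simp only [mul_assoc]
    · rw [mul_zero, zero_mul, mul_zero, zero_mul]
  have rhs : d * (∑ a, X a * X' a) * ∑ b, S b * S' b =
      ∑ a, ∑ b, d * (X a * X' a) * (S b * S' b) := by
    have e3 : d * (∑ a, X a * X' a) = ∑ a, d * (X a * X' a) := Finset.mul_sum _ _ _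
    rw [e3, Finset.sum_mul]
    exact Finset.sum_congr rfl fun a _ => Finset.mul_sum _ _ _
  rw [rhs, star_sum, Finset.sum_mul]
  refine Finset.sum_congr rfl fun a _ => ?_
  rw [star_sum, Finset.sum_mul]
  refine Finset.sum_congr rfl fun b _ => ?_
  rw [Finset.mul_sum, Finset.sum_eq_single a]
  · rw [Finset.mul_sum, Finset.sum_eq_single b]
    · rw [e1, if_pos ⟨rfl, rfl⟩]
    · intro b' _ hb'
      rw [e1, if_neg fun h => hb' h.2.symm]
    · exact fun h => absurd (Finset.mem_univ _) h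
  · intro a' _ ha'
    rw [Finset.mul_sum]
    refine Finset.sum_eq_zero fun b' _ => ?_
    rw [e1, if_neg fun h => ha' h.1.symm]
  · exact fun h => absurd (Finset.mem_univ _) h

theorem col_mul0 {ι κ : Type*} [Fintype ι] [Fintype κ]
    (y y' : ι → κ → Q) (X X' : ι → Q) (S S' : κ → Q)
    (hy : ∀ a b a' b', star (y a b) * y' a' b' = 0) :
    star (∑ a, ∑ b, y a b * X a * S b) * (∑ a, ∑ b, y' a b * X' a * S' b) = 0 := by
  rw [star_sum, Finset.sum_mul]
  refine Finset.sum_eq_zero fun a _ => ?_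
  rw [star_sum, Finset.sum_mul]
  refine Finset.sum_eq_zero fun b _ => ?_
  rw [Finset.mul_sum]
  refine Finset.sum_eq_zero fun a' _ => ?_
  rw [Finset.mul_sum]
  refine Finset.sum_eq_zero fun b' _ => ?_
  rw [star_mul, star_mul]
  calc star (S b) * (star (X a) * star (y a b)) * (y' a' b' * X' a' * S' b')
      = star (S b) * (star (X a) * ((star (y a b) * y' a' b') * X' a' * S' b')) := by
        simp only [mul_assoc]
    _ = 0 := by rw [hy, zero_mul, zero_mul, mul_zero, mul_zero]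

theorem norm_le_of_star {x : Q} {c : ℝ} (hc : 0 ≤ c) (h : ‖star x * x‖ ≤ c ^ 2) : ‖x‖ ≤ c := by
  rw [CStarRing.norm_star_mul_self] at h
  nlinarith [norm_nonneg x]

end col

section blocks

variable {Q : Type} [CStarAlgebra Q] {n : ℕ}

/-- extension of a function on `[0,1]` to the line -/
def ext1 (r : C(unitInterval, ℝ)) (t : ℝ) : ℝ := r (Set.projIcc 0 1 zero_le_one t)

theorem ext1_cont (r : C(unitInterval, ℝ)) : Continuous (ext1 r) := by
  unfold ext1
  exact r.continuous.comp continuous_projIcc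

theorem kp_lip (s t : ℝ) : |kp (1 / 4) 1 s - kp (1 / 4) 1 t| ≤ 4 * |s - t| := by
  unfold kp
  have h1 := abs_max_sub_max_le_abs (min 1 (((1 : ℕ) : ℝ) + 1 - s / (1 / 4)))
    (min 1 (((1 : ℕ) : ℝ) + 1 - t / (1 / 4))) 0
  rw [max_comm _ (0 : ℝ), max_comm _ (0 : ℝ)] at h1
  have h2 := abs_min_sub_min_le_max 1 (((1 : ℕ) : ℝ) + 1 - s / (1 / 4)) 1
    (((1 : ℕ) : ℝ) + 1 - t / (1 / 4))
  have h3 : (((1 : ℕ) : ℝ) + 1 - s / (1 / 4)) - (((1 : ℕ) : ℝ) + 1 - t / (1 / 4)) =
    -(4 * (s - t)) := by ring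
  rw [h3, sub_self, abs_zero, abs_neg, abs_mul, abs_of_pos (by norm_num : (0 : ℝ) < 4)] at h2
  refine h1.trans (h2.trans ?_)
  exact max_le (by positivity) le_rfl

theorem tc_01 {m i : ℕ} (hm : 1 ≤ m) (hi : i ≤ 2 * m) : 0 ≤ tc m i ∧ tc m i ≤ 1 := by
  have hm0 : (0 : ℝ) < m := by exact_mod_cast hm
  unfold tc
  split_ifs with h
  · refine ⟨by positivity, ?_⟩
    rw [div_le_one hm0]
    exact_mod_cast h
  · have h1 : (i : ℝ) ≤ 2 * m := by exact_mod_cast hi
    have h2 : (m : ℝ) < i := by exact_mod_cast not_le.1 h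
    refine ⟨div_nonneg (by linarith) hm0.le, ?_⟩
    rw [div_le_one hm0]
    linarith

/-- the value of the coordinates in the block `(i, a, b)` -/
def zv (m i : ℕ) (κ p : ℝ) : ℝ := (1 - tc m i * kp (1 / 4) 1 κ) * p

variable (Φ Ψ : C(Cube n, ℂ) →⋆ₐ[ℂ] Q) (K : Q)

/-- the algebra map at the site `i` -/
def ch (m i : ℕ) : C(Cube n, ℂ) →⋆ₐ[ℂ] Q := if i ≤ m then Φ else Ψ

theorem bs_ch (m i : ℕ) (f : C(Cube n, ℂ)) : bs (Φ f) (Ψ f) m i = ch Φ Ψ m i f := by
  unfold bs ch
  split_ifs <;> rfl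

/-- the block elements -/
def Rb (m : ℕ) {N N' : ℕ} (y : ℕ → Fin N → Fin N' → Q) (h : Fin N → C(Cube n, ℝ))
    (r : Fin N' → C(unitInterval, ℝ)) (i : ℕ) : Q :=
  ∑ a, ∑ b, y i a b * ch Φ Ψ m i (cxf (h a)) * cfc (ext1 (r b)) K

theorem blocks (hKsa : IsSelfAdjoint K) (hK01 : spectrum ℝ K ⊆ Set.Icc 0 1) (m : ℕ) (hm : 1 ≤ m)
    (δ : ℝ) (hδ : 0 < δ) {N N' : ℕ} (p : Fin N → Cube n) (h : Fin N → C(Cube n, ℝ))
    (hh2 : ∀ x, ∑ j, h j x ^ 2 = 1)
    (hhs : ∀ j x, h j x ≠ 0 → dist x (p j) < δ / 8) (κ : Fin N' → unitInterval)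
    (r : Fin N' → C(unitInterval, ℝ)) (hr2 : ∀ x, ∑ j, r j x ^ 2 = 1)
    (hrs : ∀ j x, r j x ≠ 0 → dist x (κ j) < δ / 32)
    (hcΦ : ∀ f, Commute (Φ f) K) (hcΨh : ∀ a, Commute (Ψ (cxf (h a))) K)
    (hcΨ : ∀ l, Commute (Ψ (co l)) K) (y : ℕ → Fin N → Fin N' → Q)
    (hyy : ∀ i j a b a' b', 1 ≤ i → i ≤ 2 * m → 1 ≤ j → j ≤ 2 * m →
      star (y i a b) * y j a' b' = if i = j ∧ a = a' ∧ b = b' then
        cfc (kp (1 / 4) 3) K * cfc (kp (1 / 4) 3) K else 0)
    (hcy : ∀ i a b, 1 ≤ i → i ≤ 2 * m → cfc (kp (1 / 4) 3) K * y i a b = 0)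
    (hD : ∀ l : Fin n, ∃ D : C(Cube n, ℂ), ‖D‖ ≤ δ / 8 ∧ ∀ i a b, 1 ≤ i → i ≤ 2 * m →
      Φ (co l) * y i a b = ((zv m i (κ b) (p a l) : ℝ) : ℂ) • y i a b + Φ D * y i a b) :
    (∀ i, 1 ≤ i → i ≤ 2 * m → cfc (kp (1 / 4) 3) K * Rb Φ Ψ K m y h r i = 0) ∧
    (∀ i j, 1 ≤ i → i ≤ 2 * m → 1 ≤ j → j ≤ 2 * m →
      star (Rb Φ Ψ K m y h r i) * Rb Φ Ψ K m y h r j = if i = j then
        cfc (kp (1 / 4) 3) K * cfc (kp (1 / 4) 3) K else 0) ∧
    (∀ i, 1 ≤ i → i ≤ 2 * m → ‖Rb Φ Ψ K m y h r i‖ ≤ 1) ∧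
    ∀ (i : ℕ) (l : Fin n), 1 ≤ i → i ≤ 2 * m →
      ‖Φ (co l) * Rb Φ Ψ K m y h r i - Rb Φ Ψ K m y h r i *
        site m (cfc (kp (1 / 4) 1) K) (Φ (co l)) (Ψ (co l)) i‖ ≤ δ / 2 := by
  classical
  set c : Q := cfc (kp (1 / 4) 3) K with hc
  have hcs : star c = c := star_cfc _ _
  have hcn : ‖c‖ ≤ 1 := norm_kp _ _ _
  have hccn : ‖c * c‖ ≤ 1 := (norm_mul_le _ _).trans (mul_le_one₀ hcn (norm_nonneg _) hcn)
  -- commutation
  have hchh : ∀ i a, Commute (ch Φ Ψ m i (cxf (h a))) K := by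
    intro i a
    unfold ch
    split_ifs
    · exact hcΦ _
    · exact hcΨh a
  have hchc : ∀ i (l : Fin n), Commute (ch Φ Ψ m i (co l)) K := by
    intro i l
    unfold ch
    split_ifs
    · exact hcΦ _
    · exact hcΨ l
  have hG : ∀ (x : Q) (G : ℝ → ℝ), Commute x K → Commute x (cfc G K) := fun x G hx =>
    (hx.symm.cfc_real G).symm
  have hcos : ∀ l : Fin n, star (co l) = co l := by
    intro l
    ext x
    change star ((((x l : ℝ)) : ℂ)) = _
    rw [Complex.star_def, Complex.conj_ofReal]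
    rfl
  -- partition of unity in `K`
  have hrsum : ∀ t ∈ spectrum ℝ K, ∑ b, ext1 (r b) t * ext1 (r b) t = 1 := by
    intro t ht
    have := hr2 (Set.projIcc 0 1 zero_le_one t)
    simp only [pow_two] at this
    exact this
  have hhsum : ∑ a, cxf (h a) * cxf (h a) = 1 := by
    ext x
    rw [ContinuousMap.sum_apply]
    simp only [ContinuousMap.mul_apply, cxf_apply, ContinuousMap.one_apply]
    have := hh2 x
    simp only [pow_two] at this
    exact_mod_cast this
  have hsumc : ∀ G : Fin N' → ℝ → ℝ, (∀ b, Continuous (G b)) →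
      ∑ b, cfc (G b) K * cfc (G b) K = cfc (fun t => ∑ b, G b t * G b t) K := by
    intro G hGc
    have e1 : ∀ b, cfc (G b) K * cfc (G b) K = cfc (fun t => G b t * G b t) K := fun b =>
      cmul K _ _ (hGc b) (hGc b)
    rw [Finset.sum_congr rfl fun b _ => e1 b, ← cfc_sum (fun b t => G b t * G b t) K Finset.univ
      (fun b _ => ((hGc b).mul (hGc b)).continuousOn)]
    congr 1
    funext t
    rw [Finset.sum_apply]
  have hR1 : ∑ b, cfc (ext1 (r b)) K * cfc (ext1 (r b)) K = 1 := by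
    rw [hsumc _ fun b => ext1_cont _, cfc_congr hrsum, cfc_const_one ℝ K hKsa]
  have hyy' : ∀ i, 1 ≤ i → i ≤ 2 * m → ∀ a b a' b', star (y i a b) * y i a' b' =
      if a = a' ∧ b = b' then c * c else 0 := by
    intro i h1 h2 a b a' b'
    rw [hyy i i a b a' b' h1 h2 h1 h2]
    simp only [true_and]
  have hstarX : ∀ i a, star (ch Φ Ψ m i (cxf (h a))) = ch Φ Ψ m i (cxf (h a)) := fun i a => by
    rw [← map_star, star_cxf]
  have hstarS : ∀ G : ℝ → ℝ, star (cfc G K) = cfc G K := fun G => star_cfc _ _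
  have hRR : ∀ i, 1 ≤ i → i ≤ 2 * m →
      star (Rb Φ Ψ K m y h r i) * Rb Φ Ψ K m y h r i = c * c := by
    intro i h1 h2
    unfold Rb
    rw [col_mul (y i) (y i) (c * c) (fun a => ch Φ Ψ m i (cxf (h a)))
      (fun a => ch Φ Ψ m i (cxf (h a))) (fun b => cfc (ext1 (r b)) K)
      (fun b => cfc (ext1 (r b)) K) (hyy' i h1 h2) (hstarX i) (fun b => hstarS _)
      (fun a => ((hG _ _ (hchh i a)).mul_right (hG _ _ (hchh i a))))
      (fun b => (cfc_commute_cfc _ _ _).mul_right (cfc_commute_cfc _ _ _))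
      (fun a b => (hG _ _ (hchh i a)).symm) (fun a b => (hG _ _ (hchh i a)).symm), hR1]
    simp only [← map_mul]
    rw [← map_sum, hhsum, map_one, mul_one, mul_one]
  have hRn : ∀ i, 1 ≤ i → i ≤ 2 * m → ‖Rb Φ Ψ K m y h r i‖ ≤ 1 := by
    intro i h1 h2
    refine norm_le_of_star zero_le_one ?_
    rw [hRR i h1 h2, one_pow]
    exact hccn
  refine ⟨?_, ?_, hRn, ?_⟩
  · intro i h1 h2
    unfold Rb
    rw [Finset.mul_sum]
    refine Finset.sum_eq_zero fun a _ => ?_
    rw [Finset.mul_sum]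
    refine Finset.sum_eq_zero fun b _ => ?_
    rw [← mul_assoc, ← mul_assoc, hcy i a b h1 h2, zero_mul, zero_mul]
  · intro i j h1 h2 h3 h4
    by_cases hij : i = j
    · subst hij
      rw [if_pos rfl]
      exact hRR i h1 h2
    · rw [if_neg hij]
      unfold Rb
      exact col_mul0 _ _ _ _ _ _ fun a b a' b' => by
        rw [hyy i j a b a' b' h1 h2 h3 h4, if_neg fun h => hij h.1]
  · intro i l h1 h2
    set χ := ch Φ Ψ m i with hχ
    set t := tc m i with ht
    obtain ⟨ht0, ht1⟩ := tc_01 hm h2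
    rw [← ht] at ht0 ht1
    obtain ⟨D, hDn, hDy⟩ := hD l
    set R := Rb Φ Ψ K m y h r i with hR
    -- the coefficient functions
    let S1 : Fin N' → ℝ → ℝ := fun b s => ext1 (r b) s * (1 - t * kp (1 / 4) 1 s)
    let S2 : Fin N' → ℝ → ℝ := fun b s => ext1 (r b) s * (t * (kp (1 / 4) 1 s - kp (1 / 4) 1 (κ b)))
    have hkc := kp_cont (1 / 4) 1
    have hS1c : ∀ b, Continuous (S1 b) := fun b => by
      have := ext1_cont (r b)
      simp only [S1]
      fun_prop
    have hS2c : ∀ b, Continuous (S2 b) := fun b => by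
      have := ext1_cont (r b)
      simp only [S2]
      fun_prop
    let X1 : Fin N → Q := fun a => χ (cxf (h a) * (co l - algebraMap ℂ _ ((p a l : ℝ) : ℂ)))
    let X2 : Fin N → Q := fun a => χ (cxf (h a) * algebraMap ℂ _ ((p a l : ℝ) : ℂ))
    have hsite : site m (cfc (kp (1 / 4) 1) K) (Φ (co l)) (Ψ (co l)) i =
        cfc (fun s => 1 - t * kp (1 / 4) 1 s) K * χ (co l) := by
      rw [site_eq, bs_ch, ← ht, ← hχ]
      congr 1
      rw [cfc_sub (fun _ => (1 : ℝ)) (fun s => t * kp (1 / 4) 1 s) K continuousOn_const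
        (by fun_prop), cfc_const_one ℝ K hKsa, cfc_const_mul t (kp (1 / 4) 1) K hkc.continuousOn,
        Complex.coe_smul]
    have hkey : Φ (co l) * R - R * site m (cfc (kp (1 / 4) 1) K) (Φ (co l)) (Ψ (co l)) i =
        Φ D * R - (∑ a, ∑ b, y i a b * X1 a * cfc (S1 b) K) +
          ∑ a, ∑ b, y i a b * X2 a * cfc (S2 b) K := by
      have e0 : ∀ a b, Φ (co l) * (y i a b * χ (cxf (h a)) * cfc (ext1 (r b)) K) -
          y i a b * χ (cxf (h a)) * cfc (ext1 (r b)) K *
            (cfc (fun s => 1 - t * kp (1 / 4) 1 s) K * χ (co l)) =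
          Φ D * (y i a b * χ (cxf (h a)) * cfc (ext1 (r b)) K) -
            y i a b * X1 a * cfc (S1 b) K + y i a b * X2 a * cfc (S2 b) K := by
        intro a b
        have h3 : cfc (ext1 (r b)) K * (cfc (fun s => 1 - t * kp (1 / 4) 1 s) K * χ (co l)) =
            χ (co l) * cfc (S1 b) K := by
          rw [← mul_assoc, cmul K _ _ (ext1_cont _) (by fun_prop), (hG _ (S1 b) (hchc i l)).eq]
        have h4 : Φ (co l) * (y i a b * χ (cxf (h a)) * cfc (ext1 (r b)) K) =
            ((zv m i (κ b) (p a l) : ℝ) : ℂ) • (y i a b * χ (cxf (h a)) * cfc (ext1 (r b)) K) +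
            Φ D * (y i a b * χ (cxf (h a)) * cfc (ext1 (r b)) K) := by
          rw [← mul_assoc, ← mul_assoc, hDy i a b h1 h2, add_mul, add_mul, smul_mul_assoc,
            smul_mul_assoc]
          simp only [mul_assoc]
        have h5 : X1 a = χ (cxf (h a)) * χ (co l) - ((p a l : ℝ) : ℂ) • χ (cxf (h a)) := by
          simp only [X1]
          rw [mul_sub, map_sub, map_mul, ← Algebra.commutes, ← Algebra.smul_def, map_smul]
        have h6 : X2 a = ((p a l : ℝ) : ℂ) • χ (cxf (h a)) := by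
          simp only [X2]
          rw [← Algebra.commutes, ← Algebra.smul_def, map_smul]
        have h7 : cfc (S2 b) K = ((1 - t * kp (1 / 4) 1 (κ b) : ℝ) : ℂ) • cfc (ext1 (r b)) K -
            cfc (S1 b) K := by
          rw [Complex.coe_smul, ← cfc_const_mul _ _ _ (ext1_cont _).continuousOn,
            ← cfc_sub _ _ K (by have := ext1_cont (r b); fun_prop) (hS1c b).continuousOn]
          congr 1
          funext s
          simp only [S1, S2]
          ring
        rw [h4, mul_assoc (y i a b * χ (cxf (h a))), h3, h5, h6, h7]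
        have h8 : ((zv m i (κ b) (p a l) : ℝ) : ℂ) =
          ((p a l : ℝ) : ℂ) * ((1 - t * kp (1 / 4) 1 (κ b) : ℝ) : ℂ) := by
          rw [zv, ← ht]; push_cast; ring
        rw [h8]
        generalize ((1 - t * kp (1 / 4) 1 (κ b) : ℝ) : ℂ) = z
        generalize ((p a l : ℝ) : ℂ) = q
        simp only [mul_sub, sub_mul, mul_smul_comm, smul_mul_assoc, smul_smul]
        simp only [mul_assoc]
        rw [mul_comm z q]
        abel
      rw [hsite, hR]
      unfold Rb
      simp only [Finset.mul_sum, Finset.sum_mul, ← Finset.sum_sub_distrib, ← Finset.sum_add_distrib]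
      exact Finset.sum_congr rfl fun a _ => Finset.sum_congr rfl fun b _ => e0 a b
    have hco' : ∀ (a : Fin N), star (co l - algebraMap ℂ C(Cube n, ℂ) ((p a l : ℝ) : ℂ)) =
        co l - algebraMap ℂ C(Cube n, ℂ) ((p a l : ℝ) : ℂ) := by
      intro a
      rw [star_sub, hcos, ← algebraMap_star_comm, Complex.star_def, Complex.conj_ofReal]
    have hX1s : ∀ a, star (X1 a) = X1 a := fun a => by
      simp only [X1]
      rw [← map_star, star_mul, star_cxf, hco', mul_comm]
    have hX2s : ∀ a, star (X2 a) = X2 a := fun a => by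
      simp only [X2]
      rw [← map_star, star_mul, star_cxf, ← algebraMap_star_comm, Complex.star_def,
        Complex.conj_ofReal, mul_comm]
    have hX1c : ∀ a, Commute (X1 a) K := fun a => by
      simp only [X1]
      rw [map_mul, map_sub, AlgHomClass.commutes]
      exact (hchh i a).mul_left ((hchc i l).sub_left (Algebra.commute_algebraMap_left _ _))
    have hX2c : ∀ a, Commute (X2 a) K := fun a => by
      simp only [X2]
      rw [map_mul, AlgHomClass.commutes]
      exact (hchh i a).mul_left (Algebra.commute_algebraMap_left _ _)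
    have hδ8 : (0 : ℝ) ≤ δ / 8 := by positivity
    -- norms
    have hW1 : ‖∑ a, ∑ b, y i a b * X1 a * cfc (S1 b) K‖ ≤ δ / 8 := by
      refine norm_le_of_star hδ8 ?_
      rw [col_mul (y i) (y i) (c * c) X1 X1 (fun b => cfc (S1 b) K) (fun b => cfc (S1 b) K)
        (hyy' i h1 h2) hX1s (fun b => hstarS _)
        (fun a => ((hG _ _ (hX1c a)).mul_right (hG _ _ (hX1c a))))
        (fun b => (cfc_commute_cfc _ _ _).mul_right (cfc_commute_cfc _ _ _))
        (fun a b => (hG _ _ (hX1c a)).symm) (fun a b => (hG _ _ (hX1c a)).symm), hsumc _ hS1c]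
      have hn1 : ‖∑ a, X1 a * X1 a‖ ≤ (δ / 8) ^ 2 := by
        have e1 : ∑ a, X1 a * X1 a = χ (∑ a, (cxf (h a) *
            (co l - algebraMap ℂ _ ((p a l : ℝ) : ℂ))) * (cxf (h a) *
            (co l - algebraMap ℂ _ ((p a l : ℝ) : ℂ)))) := by
          rw [map_sum]
          exact Finset.sum_congr rfl fun a _ => (map_mul _ _ _).symm
        rw [e1]
        refine (NonUnitalStarAlgHom.norm_apply_le χ _).trans ?_
        rw [ContinuousMap.norm_le _ (by positivity)]
        intro x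
        have e2 : (∑ a, (cxf (h a) * (co l - algebraMap ℂ _ ((p a l : ℝ) : ℂ))) *
            (cxf (h a) * (co l - algebraMap ℂ _ ((p a l : ℝ) : ℂ)))) x =
            ((∑ a, h a x ^ 2 * ((x l : ℝ) - (p a l : ℝ)) ^ 2 : ℝ) : ℂ) := by
          rw [ContinuousMap.sum_apply]
          push_cast
          refine Finset.sum_congr rfl fun a _ => ?_
          change (((h a x : ℝ) : ℂ) * (((x l : ℝ) : ℂ) - ((p a l : ℝ) : ℂ))) *
            (((h a x : ℝ) : ℂ) * (((x l : ℝ) : ℂ) - ((p a l : ℝ) : ℂ))) = _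
          ring
        rw [e2, Complex.norm_real, Real.norm_eq_abs,
          abs_of_nonneg (Finset.sum_nonneg fun a _ => by positivity)]
        calc ∑ a, h a x ^ 2 * ((x l : ℝ) - (p a l : ℝ)) ^ 2 ≤ ∑ a, h a x ^ 2 * (δ / 8) ^ 2 := by
              refine Finset.sum_le_sum fun a _ => ?_
              by_cases ha : h a x = 0
              · rw [ha]; simp
              · refine mul_le_mul_of_nonneg_left ?_ (sq_nonneg _)
                have h3 := (hhs a x ha).le
                have h4 : |(x l : ℝ) - (p a l : ℝ)| ≤ dist x (p a) := by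
                  have := dist_le_pi_dist x (p a) l
                  rwa [Subtype.dist_eq, Real.dist_eq] at this
                rw [← sq_abs]
                exact pow_le_pow_left₀ (abs_nonneg _) (h4.trans h3) 2
          _ = (δ / 8) ^ 2 := by rw [← Finset.sum_mul, hh2, one_mul]
      have hn2 : ‖cfc (fun s => ∑ b, S1 b s * S1 b s) K‖ ≤ 1 := by
        refine norm_cfc_le zero_le_one fun s hs => ?_
        have e1 : ∑ b, S1 b s * S1 b s = (∑ b, ext1 (r b) s * ext1 (r b) s) *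
            (1 - t * kp (1 / 4) 1 s) ^ 2 := by
          rw [Finset.sum_mul]
          refine Finset.sum_congr rfl fun b _ => ?_
          simp only [S1]
          ring
        rw [e1, hrsum s hs, one_mul, Real.norm_eq_abs, abs_of_nonneg (sq_nonneg _)]
        have hk01 := kp_01 (1 / 4) 1 s
        have h5 : 0 ≤ t * kp (1 / 4) 1 s := mul_nonneg ht0 hk01.1
        have h6 : t * kp (1 / 4) 1 s ≤ 1 := mul_le_one₀ ht1 hk01.1 hk01.2
        nlinarith
      calc ‖c * c * (∑ a, X1 a * X1 a) * cfc (fun s => ∑ b, S1 b s * S1 b s) K‖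
          ≤ ‖c * c * (∑ a, X1 a * X1 a)‖ * ‖cfc (fun s => ∑ b, S1 b s * S1 b s) K‖ :=
            norm_mul_le _ _
        _ ≤ (1 * (δ / 8) ^ 2) * 1 := by
            refine mul_le_mul ((norm_mul_le _ _).trans (mul_le_mul hccn hn1 (norm_nonneg _)
              zero_le_one)) hn2 (norm_nonneg _) (by positivity)
        _ = (δ / 8) ^ 2 := by ring
    have hW2 : ‖∑ a, ∑ b, y i a b * X2 a * cfc (S2 b) K‖ ≤ δ / 8 := by
      refine norm_le_of_star hδ8 ?_
      rw [col_mul (y i) (y i) (c * c) X2 X2 (fun b => cfc (S2 b) K) (fun b => cfc (S2 b) K)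
        (hyy' i h1 h2) hX2s (fun b => hstarS _)
        (fun a => ((hG _ _ (hX2c a)).mul_right (hG _ _ (hX2c a))))
        (fun b => (cfc_commute_cfc _ _ _).mul_right (cfc_commute_cfc _ _ _))
        (fun a b => (hG _ _ (hX2c a)).symm) (fun a b => (hG _ _ (hX2c a)).symm), hsumc _ hS2c]
      have hn1 : ‖∑ a, X2 a * X2 a‖ ≤ 1 := by
        have e1 : ∑ a, X2 a * X2 a = χ (∑ a, (cxf (h a) * algebraMap ℂ _ ((p a l : ℝ) : ℂ)) *
            (cxf (h a) * algebraMap ℂ _ ((p a l : ℝ) : ℂ))) := by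
          rw [map_sum]
          exact Finset.sum_congr rfl fun a _ => (map_mul _ _ _).symm
        rw [e1]
        refine (NonUnitalStarAlgHom.norm_apply_le χ _).trans ?_
        rw [ContinuousMap.norm_le _ (by positivity)]
        intro x
        have e2 : (∑ a, (cxf (h a) * algebraMap ℂ _ ((p a l : ℝ) : ℂ)) *
            (cxf (h a) * algebraMap ℂ _ ((p a l : ℝ) : ℂ))) x =
            ((∑ a, h a x ^ 2 * (p a l : ℝ) ^ 2 : ℝ) : ℂ) := by
          rw [ContinuousMap.sum_apply]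
          push_cast
          refine Finset.sum_congr rfl fun a _ => ?_
          change (((h a x : ℝ) : ℂ) * ((p a l : ℝ) : ℂ)) *
            (((h a x : ℝ) : ℂ) * ((p a l : ℝ) : ℂ)) = _
          ring
        rw [e2, Complex.norm_real, Real.norm_eq_abs,
          abs_of_nonneg (Finset.sum_nonneg fun a _ => by positivity)]
        calc ∑ a, h a x ^ 2 * (p a l : ℝ) ^ 2 ≤ ∑ a, h a x ^ 2 * 1 := by
              refine Finset.sum_le_sum fun a _ => mul_le_mul_of_nonneg_left ?_ (sq_nonneg _)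
              exact pow_le_one₀ (p a l).2.1 (p a l).2.2
          _ = 1 := by rw [← Finset.sum_mul, hh2, one_mul]
      have hn2 : ‖cfc (fun s => ∑ b, S2 b s * S2 b s) K‖ ≤ (δ / 8) ^ 2 := by
        refine norm_cfc_le (by positivity) fun s hs => ?_
        rw [Real.norm_eq_abs, abs_of_nonneg (Finset.sum_nonneg fun b _ => mul_self_nonneg _)]
        calc ∑ b, S2 b s * S2 b s ≤ ∑ b, (ext1 (r b) s * ext1 (r b) s) * (δ / 8) ^ 2 := by
              refine Finset.sum_le_sum fun b _ => ?_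
              by_cases hb : ext1 (r b) s = 0
              · simp only [S2, hb]; simp
              · have e3 : S2 b s * S2 b s = (ext1 (r b) s * ext1 (r b) s) *
                    (t * (kp (1 / 4) 1 s - kp (1 / 4) 1 (κ b))) ^ 2 := by
                  simp only [S2]; ring
                rw [e3]
                refine mul_le_mul_of_nonneg_left ?_ (mul_self_nonneg _)
                have hs01 := hK01 hs
                have h3 := (hrs b _ hb).le
                rw [Set.projIcc_of_mem zero_le_one hs01, Subtype.dist_eq, Real.dist_eq] at h3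
                have h4 := kp_lip s (κ b)
                have h5 : |t * (kp (1 / 4) 1 s - kp (1 / 4) 1 (κ b))| ≤ δ / 8 := by
                  rw [abs_mul, abs_of_nonneg ht0]
                  calc t * |kp (1 / 4) 1 s - kp (1 / 4) 1 (κ b)| ≤ 1 * (4 * (δ / 32)) := by
                        refine mul_le_mul ht1 (h4.trans ?_) (abs_nonneg _) zero_le_one
                        have h6 : |s - (κ b : ℝ)| ≤ δ / 32 := h3
                        linarith
                    _ = δ / 8 := by ring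
                rw [← sq_abs]
                exact pow_le_pow_left₀ (abs_nonneg _) h5 2
          _ = (δ / 8) ^ 2 := by rw [← Finset.sum_mul, hrsum s hs, one_mul]
      calc ‖c * c * (∑ a, X2 a * X2 a) * cfc (fun s => ∑ b, S2 b s * S2 b s) K‖
          ≤ ‖c * c * (∑ a, X2 a * X2 a)‖ * ‖cfc (fun s => ∑ b, S2 b s * S2 b s) K‖ :=
            norm_mul_le _ _
        _ ≤ (1 * 1) * (δ / 8) ^ 2 := by
            refine mul_le_mul ((norm_mul_le _ _).trans (mul_le_mul hccn hn1 (norm_nonneg _)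
              zero_le_one)) hn2 (norm_nonneg _) (by positivity)
        _ = (δ / 8) ^ 2 := by ring
    rw [hkey]
    have hΦD : ‖Φ D * R‖ ≤ δ / 8 := by
      calc ‖Φ D * R‖ ≤ ‖Φ D‖ * ‖R‖ := norm_mul_le _ _
        _ ≤ δ / 8 * 1 := mul_le_mul ((NonUnitalStarAlgHom.norm_apply_le Φ D).trans hDn)
            (hRn i h1 h2) (norm_nonneg _) hδ8
        _ = δ / 8 := mul_one _
    calc _ ≤ ‖Φ D * R - ∑ a, ∑ b, y i a b * X1 a * cfc (S1 b) K‖ +
          ‖∑ a, ∑ b, y i a b * X2 a * cfc (S2 b) K‖ := norm_add_le _ _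
      _ ≤ (δ / 8 + δ / 8) + δ / 8 := add_le_add ((norm_sub_le _ _).trans (add_le_add hΦD hW1)) hW2
      _ ≤ δ / 2 := by linarith

end blocks

end Pool.Agent.S71.UQ
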