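import Pool.Agent.S71.UQ.Data
import Pool.Agent.N861.UN.ZZ
import Pool.Agent.N726.UN.Coord

/-! Approximate unitary equivalence on the coordinates. -/

set_option autoImplicit false

open Filter Topology MeasureTheory

noncomputable section

namespace Pool.Agent.S71.UQ

open Pool.Agent.N300.UN Pool.Agent.H923R2.FZ Pool.Agent.N300.UN.T_CORE0

theorem core0 {n : ℕ} {B : Type} [CStarAlgebra B] [Nontrivial B] (μ : Measure (Cube n))
    [IsProbabilityMeasure μ] (hn : 1 ≤ n)
    (hfull : ∀ U : Set (Cube n), IsOpen U → U.Nonempty → 0 < μ.real U)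
    (hSR : SR B) (φ ψ : C(Cube n, ℂ) →⋆ₐ[ℂ] B) (hcm : Cmp μ φ ψ) (hcm' : Cmp μ φ φ)
    (ε : ℝ) (hε : 0 < ε) :
    ∃ v : unitary B, ∀ l : Fin n, ‖φ (co l) * (v : B) - (v : B) * ψ (co l)‖ < ε := by
  classical
  obtain ⟨m0, hm0⟩ := exists_nat_gt (4 / ε)
  set m : ℕ := m0 + 1 with hm
  have hm1 : 1 ≤ m := by omega
  have hmpos : (0 : ℝ) < m := by exact_mod_cast hm1
  have hmε : 1 / (m : ℝ) < ε / 4 := by
    rw [div_lt_iff₀ hmpos]
    have h1 : 4 / ε < m := hm0.trans (by rw [hm]; push_cast; linarith)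
    rw [div_lt_iff₀ hε] at h1
    linarith
  have hδ : ∀ k : ℕ, (0 : ℝ) < 1 / ((k : ℝ) + 1) := fun k => by positivity
  have hd := fun k : ℕ => data μ hn hfull hSR φ ψ hcm hcm' m hm1 (1 / ((k : ℝ) + 1)) (hδ k)
  choose w P e R he hPsa hPn hRn hcomm hab hcR hRR hint using hd
  obtain ⟨L, Q, _, _, ev, pr, lf, ext, hlt, hle⟩ := Pool.Agent.N839.UN.t_SEQ B
  set a : Fin n → B := fun l => φ (co l) with ha
  set d : Fin n → B := fun l => ψ (co l) with hdd
  have hco : ∀ (χ : C(Cube n, ℂ) →⋆ₐ[ℂ] B) (l : Fin n), ‖χ (co l)‖ ≤ 1 := by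
    intro χ l
    refine (NonUnitalStarAlgHom.norm_apply_le χ (co l)).trans ?_
    refine (ContinuousMap.norm_le _ zero_le_one).2 fun x => ?_
    change ‖(((x l : ℝ)) : ℂ)‖ ≤ 1
    rw [Complex.norm_real, Real.norm_eq_abs, abs_of_nonneg (x l).2.1]
    exact (x l).2.2
  have hcos : ∀ l : Fin n, star (co l) = co l := by
    intro l
    ext x
    change star ((((x l : ℝ)) : ℂ)) = _
    rw [Complex.star_def, Complex.conj_ofReal]
    rfl
  have han : ∀ l, ‖a l‖ ≤ 1 := fun l => hco φ l
  have hdn : ∀ l, ‖d l‖ ≤ 1 := fun l => hco ψ l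
  have has : ∀ l, star (a l) = a l := fun l => by rw [ha]; simp only [← map_star, hcos]
  have hds : ∀ l, star (d l) = d l := fun l => by rw [hdd]; simp only [← map_star, hcos]
  -- lifts
  obtain ⟨W, hW⟩ := lf (fun k => (w k : B)) ⟨1, fun k => (CStarRing.norm_coe_unitary _).le⟩
  obtain ⟨σ, hσ⟩ := lf (fun k => cfc (kp (e k) 1) (P k)) ⟨1, fun k => norm_kp _ _ _⟩
  obtain ⟨ρ, hρ⟩ := lf (fun k => cfc (kp (e k) 2) (P k)) ⟨1, fun k => norm_kp _ _ _⟩
  obtain ⟨c, hc⟩ := lf (fun k => cfc (kp (e k) 3) (P k)) ⟨1, fun k => norm_kp _ _ _⟩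
  have hq1 : ∀ (e : ℝ) (t : ℝ), |√(kp e 2 t)| ≤ 1 := fun e t => by
    rw [abs_of_nonneg (Real.sqrt_nonneg _)]
    exact Real.sqrt_le_iff.2 ⟨zero_le_one, by have := (kp_01 e 2 t).2; linarith⟩
  have hq2 : ∀ (e : ℝ) (t : ℝ), |√(1 - kp e 2 t)| ≤ 1 := fun e t => by
    rw [abs_of_nonneg (Real.sqrt_nonneg _)]
    exact Real.sqrt_le_iff.2 ⟨zero_le_one, by have := (kp_01 e 2 t).1; linarith⟩
  obtain ⟨Y, hY⟩ := lf (fun k => cfc (fun t => √(kp (e k) 2 t)) (P k))
    ⟨1, fun k => norm_cfc_le_one _ _ (hq1 _)⟩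
  obtain ⟨Z, hZ'⟩ := lf (fun k => cfc (fun t => √(1 - kp (e k) 2 t)) (P k))
    ⟨1, fun k => norm_cfc_le_one _ _ (hq2 _)⟩
  have hAL : ∀ l, ∃ X : L, ∀ k, ev k X = a l := fun l => lf (fun _ => a l) ⟨‖a l‖, fun _ => le_rfl⟩
  choose AL hAL using hAL
  have hDL : ∀ l, ∃ X : L, ∀ k, ev k X = d l := fun l => lf (fun _ => d l) ⟨‖d l‖, fun _ => le_rfl⟩
  choose DL hDL using hDL
  have hRL : ∀ i, ∃ X : L, ∀ k, ev k X = R k i := fun i => lf (fun k => R k i)
    ⟨2, fun k => hRn k i⟩
  choose RL hRL using hRL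
  obtain ⟨BL, hBLk⟩ : ∃ BL : Fin n → L, ∀ l k, ev k (BL l) = (w k : B) * d l * star (w k : B) :=
    ⟨fun l => W * DL l * star W, fun l k => by simp only [map_mul, map_star, hW, hDL]⟩
  have hPsa' : ∀ k, IsSelfAdjoint (P k) := fun k => hPsa k
  -- exact relations
  have hWW : star W * W = 1 := ext _ _ fun k => by
    rw [map_mul, map_star, hW, map_one]; exact Unitary.coe_star_mul_self _
  have hWW' : W * star W = 1 := ext _ _ fun k => by
    rw [map_mul, map_star, hW, map_one]; exact Unitary.coe_mul_star_self _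
  have hσs : star σ = σ := ext _ _ fun k => by rw [map_star, hσ, star_cfc]
  have hρs : star ρ = ρ := ext _ _ fun k => by rw [map_star, hρ, star_cfc]
  have hcs : star c = c := ext _ _ fun k => by rw [map_star, hc, star_cfc]
  have hσρ : σ * ρ = σ := ext _ _ fun k => by
    rw [map_mul, hσ, hρ, cmul _ _ _ (kp_cont _ _) (kp_cont _ _)]
    congr 1
    funext t
    rw [mul_comm, kp_mul (he k) (by norm_num)]
  have hσρc : Commute σ ρ := ext _ _ fun k => by
    rw [map_mul, map_mul, hσ, hρ]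
    exact (cfc_commute_cfc _ _ _).eq
  have hBLs : ∀ l, star (BL l) = BL l := fun l => ext _ _ fun k => by
    rw [map_star, hBLk, star_mul, star_mul, star_star, hds, mul_assoc]
  have hALs : ∀ l, star (AL l) = AL l := fun l => ext _ _ fun k => by
    rw [map_star, hAL, has]
  have hPC : PC (pr ρ) := by
    refine pc_of (pr ρ) (pr Y) (pr Z) ?_ ?_
    · rw [← map_star, ← map_mul]
      congr 1
      refine ext _ _ fun k => ?_
      rw [map_mul, map_star, hY, hρ, star_cfc, cmul _ _ _ (by have := kp_cont (e k) 2; fun_prop)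
        (by have := kp_cont (e k) 2; fun_prop)]
      congr 1
      funext t
      exact Real.mul_self_sqrt (kp_01 _ _ _).1
    · rw [← map_star, ← map_mul, ← map_one pr, ← map_sub]
      congr 1
      refine ext _ _ fun k => ?_
      rw [map_mul, map_star, hZ', map_sub, map_one, hρ, star_cfc,
        cmul _ _ _ (by have := kp_cont (e k) 2; fun_prop)
        (by have := kp_cont (e k) 2; fun_prop), ← cfc_const_one ℝ (P k) (hPsa' k),
        ← cfc_sub (fun _ => (1 : ℝ)) (kp (e k) 2) (P k) continuousOn_const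
          (kp_cont _ _).continuousOn]
      congr 1
      funext t
      refine Real.mul_self_sqrt ?_
      have := (kp_01 (e k) 2 t).2
      linarith
  have hρsa : IsSelfAdjoint ρ := hρs
  have hcfc : ∀ G : ℝ → ℝ, Continuous G → cfc G (pr ρ) = pr (cfc G ρ) := fun G hG =>
    (pr.map_cfc G ρ hG.continuousOn (cont_hom pr) hρsa (hρsa.map pr)).symm
  have hcfck : ∀ G : ℝ → ℝ, Continuous G → ∀ k, ev k (cfc G ρ) =
      cfc (fun t => G (kp (e k) 2 t)) (P k) := by
    intro G hG k
    rw [(ev k).map_cfc G ρ hG.continuousOn (cont_hom (ev k)) hρsa (hρsa.map (ev k)), hρ,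
      ← cfc_comp' G (kp (e k) 2) (P k) hG.continuousOn (kp_cont _ _).continuousOn (hPsa' k)]
  have hcG : ∀ G : ℝ → ℝ, Continuous G → G 0 = 0 → c * cfc G ρ = cfc G ρ := by
    intro G hG hG0
    refine ext _ _ fun k => ?_
    rw [map_mul, hcfck G hG, hc, cmul (P k) (kp (e k) 3) (fun t => G (kp (e k) 2 t))
      (kp_cont _ _) (hG.comp (kp_cont _ _))]
    congr 1
    funext t
    by_cases h0 : kp (e k) 2 t = 0
    · rw [h0, hG0, mul_zero]
    · have h1 := kp_mul (he k) (show 2 < 3 by norm_num) t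
      have h2 : kp (e k) 3 t = 1 := mul_right_cancel₀ h0 (by rw [h1, one_mul])
      rw [h2, one_mul]
  have hcG' : ∀ G : ℝ → ℝ, Continuous G → G 0 = 0 → cfc G ρ * c = cfc G ρ := by
    intro G hG hG0
    have h1 := congrArg star (hcG G hG hG0)
    rwa [star_mul, star_cfc, hcs] at h1
  -- approximate relations
  have hAσ : ∀ l, Commute (pr (AL l)) (pr σ) := fun l => by
    refine (map_mul pr _ _).symm.trans ((eq_of ev pr hle _ _ 1 fun k => ?_).trans (map_mul pr _ _))
    rw [map_mul, map_mul, hAL, hσ, one_mul]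
    exact (hcomm k l 1 (Or.inl rfl)).1
  have hBσ : ∀ l, Commute (pr (BL l)) (pr σ) := fun l => by
    refine (map_mul pr _ _).symm.trans ((eq_of ev pr hle _ _ 1 fun k => ?_).trans (map_mul pr _ _))
    rw [map_mul, map_mul, hBLk, hσ, one_mul]
    exact (hcomm k l 1 (Or.inl rfl)).2
  have hAρ : ∀ l, Commute (pr (AL l)) (pr ρ) := fun l => by
    refine (map_mul pr _ _).symm.trans ((eq_of ev pr hle _ _ 1 fun k => ?_).trans (map_mul pr _ _))
    rw [map_mul, map_mul, hAL, hρ, one_mul]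
    exact (hcomm k l 2 (Or.inr (Or.inl rfl))).1
  have hBρ : ∀ l, Commute (pr (BL l)) (pr ρ) := fun l => by
    refine (map_mul pr _ _).symm.trans ((eq_of ev pr hle _ _ 1 fun k => ?_).trans (map_mul pr _ _))
    rw [map_mul, map_mul, hBLk, hρ, one_mul]
    exact (hcomm k l 2 (Or.inr (Or.inl rfl))).2
  have hABσ : ∀ l, (1 - pr σ) * (pr (AL l) - pr (BL l)) = 0 := fun l => by
    rw [← map_one pr, ← map_sub, ← map_sub, ← map_mul]
    refine null_of ev pr hle _ 1 fun k => ?_
    rw [map_mul, map_sub, map_sub, map_one, hσ, hAL, hBLk, one_mul]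
    exact hab k l
  have hprs : ∀ X : L, star X = X → star (pr X) = pr X := fun X hX => by rw [← map_star, hX]
  have hσn : ‖pr σ‖ ≤ 1 := hle _ _ zero_le_one (Filter.Eventually.of_forall fun k => by
    rw [hσ]; exact norm_kp _ _ _)
  have hAn : ∀ l, ‖pr (AL l)‖ ≤ 1 := fun l => hle _ _ zero_le_one
    (Filter.Eventually.of_forall fun k => by rw [hAL]; exact han l)
  have hBn : ∀ l, ‖pr (BL l)‖ ≤ 1 := fun l => hle _ _ zero_le_one
    (Filter.Eventually.of_forall fun k => by
      rw [hBLk, ← Unitary.coe_star, CStarRing.norm_mul_coe_unitary, CStarRing.norm_coe_unitary_mul]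
      exact hdn l)
  -- the zigzag lemma
  obtain ⟨V, hVS, hVint⟩ := Pool.Agent.N861.UN.t_ZZ Q (2 * m) (Fin n)
    (fun i l => site m (pr σ) (pr (AL l)) (pr (BL l)) i) (pr ρ) (pr c)
    (fun i => if i = 0 then 1 else pr (RL i)) (1 / m) hPC (hprs c hcs)
    (fun G hG hG0 => ⟨by rw [hcfc G hG, ← map_mul, hcG G hG hG0],
      by rw [hcfc G hG, ← map_mul, hcG' G hG hG0]⟩) (if_pos rfl)
    (by
      intro i h1 h2
      rw [if_neg (by omega), ← map_mul]
      refine null_of ev pr hle _ 1 fun k => ?_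
      rw [map_mul, hc, hRL, one_mul]
      exact hcR k i h1 h2)
    (by
      intro i j h1 h2 h3 h4
      rw [if_neg (by omega), if_neg (by omega)]
      have h5 := hRR
      by_cases hij : i = j
      · rw [if_pos hij, ← map_star, ← map_mul, ← map_mul]
        refine eq_of ev pr hle _ _ 1 fun k => ?_
        have h6 := hRR k i j h1 h2 h3 h4
        rw [if_pos hij] at h6
        rw [map_mul, map_star, map_mul, hRL, hRL, hc, one_mul]
        exact h6
      · rw [if_neg hij, ← map_star, ← map_mul]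
        refine null_of ev pr hle _ 1 fun k => ?_
        have h6 := hRR k i j h1 h2 h3 h4
        rw [if_neg hij, sub_zero] at h6
        rw [map_mul, map_star, hRL, hRL, one_mul]
        exact h6)
    (fun i l _ => site_star m _ _ _ (hprs σ hσs) (hprs _ (hALs l)) (hprs _ (hBLs l)) (hAσ l)
      (hBσ l) i)
    (fun i l _ => site_comm m _ _ _ _ (hσρc.map pr) (hAρ l) (hBρ l) i)
    (by
      intro i j l _ _
      have hσρ' : pr σ * pr ρ = pr σ := by rw [← map_mul, hσρ]
      have e1 := site_rho m _ _ _ _ hσρ' (hAσ l) (hBσ l) (hABσ l) i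
      have e2 := site_rho m _ _ _ _ hσρ' (hAσ l) (hBσ l) (hABσ l) j
      have e3 : (site m (pr σ) (pr (AL l)) (pr (BL l)) i -
          site m (pr σ) (pr (AL l)) (pr (BL l)) j) * (1 - pr ρ) = 0 := by
        rw [sub_mul, e1, e2, sub_self]
      rw [mul_sub, mul_one, sub_eq_zero] at e3
      exact e3.symm)
    (by
      intro i l h2
      by_cases h0 : i = 0
      · subst h0
        simp
      · simp only [if_neg h0]
        rw [site_zero, ← map_site, ← map_mul, ← map_mul]
        refine eq_of ev pr hle _ _ 1 fun k => ?_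
        rw [map_mul, map_mul, map_site, hAL, hRL, hσ, hBLk, one_mul]
        exact hint k i l (by omega) h2)
    (by positivity)
    (fun i l hi => site_diff m hm1 _ _ _ hσn (hAn l) (hBn l) (hABσ l) i hi)
    pr.range
    (by
      intro i _
      by_cases h0 : i = 0
      · rw [if_pos h0]; exact one_mem _
      · rw [if_neg h0]; exact ⟨RL i, rfl⟩)
    (fun G hG => by rw [hcfc G hG]; exact ⟨_, rfl⟩)
  obtain ⟨v, hv⟩ := hVS
  change pr v = (V : Q) at hv
  -- back to `B`
  set η : ℝ := min (1 / 2) (ε / 16) with hη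
  have hη0 : 0 < η := lt_min (by norm_num) (by positivity)
  have h1 : ∀ᶠ k in Filter.atTop, ‖ev k (star v * v - 1)‖ < η := by
    refine hlt _ _ ?_
    rw [map_sub, map_mul, map_star, hv, map_one, Unitary.coe_star_mul_self, sub_self, norm_zero]
    exact hη0
  have h2 : ∀ᶠ k in Filter.atTop, ‖ev k (v * star v - 1)‖ < η := by
    refine hlt _ _ ?_
    rw [map_sub, map_mul, map_star, hv, map_one, (Unitary.mem_iff.1 V.2).2, sub_self, norm_zero]
    exact hη0
  have h3 : ∀ l : Fin n, ∀ᶠ k in Filter.atTop, ‖ev k (AL l * v - v * BL l)‖ < ε / 2 := by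
    intro l
    refine hlt _ _ ?_
    have h4 := hVint l
    simp only [site_zero, site_last m hm1] at h4
    rw [map_sub, map_mul, map_mul, hv]
    refine h4.trans_lt (hmε.trans ?_)
    linarith
  obtain ⟨k, hk1, hk2, hk3⟩ := (h1.and (h2.and (Filter.eventually_all.2 h3))).exists
  obtain ⟨y, hy⟩ := near_unitary (ev k v) η (lt_of_le_of_lt (min_le_left _ _) (by norm_num))
    (by rw [map_sub, map_mul, map_star, map_one] at hk1; exact hk1.le)
    (by rw [map_sub, map_mul, map_star, map_one] at hk2; exact hk2.le)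
  refine ⟨y * w k, fun l => ?_⟩
  have h5 := hk3 l
  rw [map_sub, map_mul, map_mul, hAL, hBLk] at h5
  change ‖a l * ((y * w k : unitary B) : B) - ((y * w k : unitary B) : B) * d l‖ < ε
  have e1 : a l * ((y * w k : unitary B) : B) - ((y * w k : unitary B) : B) * d l =
      (a l * (y : B) - (y : B) * ((w k : B) * d l * star (w k : B))) * (w k : B) := by
    have e2 : star (w k : B) * (w k : B) = 1 := Unitary.coe_star_mul_self _
    rw [sub_mul]
    congr 1
    · rw [mul_assoc]; rfl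
    · calc ((y * w k : unitary B) : B) * d l = (y : B) * ((w k : B) * d l) := by
            rw [← mul_assoc]; rfl
        _ = (y : B) * ((w k : B) * d l * star (w k : B)) * (w k : B) := by
            rw [mul_assoc, mul_assoc ((w k : B) * d l), e2, mul_one]
  rw [e1, CStarRing.norm_mul_coe_unitary]
  have e3 : a l * (y : B) - (y : B) * ((w k : B) * d l * star (w k : B)) =
      (a l * ev k v - ev k v * ((w k : B) * d l * star (w k : B))) -
      a l * (ev k v - y) + (ev k v - y) * ((w k : B) * d l * star (w k : B)) := by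
    noncomm_ring
  have e4 : ‖(w k : B) * d l * star (w k : B)‖ ≤ 1 := by
    rw [← Unitary.coe_star, CStarRing.norm_mul_coe_unitary, CStarRing.norm_coe_unitary_mul]
    exact hdn l
  have e5 : η ≤ ε / 16 := min_le_right _ _
  have e6 : ‖a l * (ev k v - y)‖ ≤ η := by
    calc ‖a l * (ev k v - y)‖ ≤ ‖a l‖ * ‖ev k v - y‖ := norm_mul_le _ _
      _ ≤ 1 * η := by gcongr; exact han l
      _ = η := one_mul _
  have e7 : ‖(ev k v - y) * ((w k : B) * d l * star (w k : B))‖ ≤ η := by
    calc ‖(ev k v - y) * ((w k : B) * d l * star (w k : B))‖ ≤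
          ‖ev k v - y‖ * ‖(w k : B) * d l * star (w k : B)‖ := norm_mul_le _ _
      _ ≤ η * 1 := by gcongr
      _ = η := mul_one _
  rw [e3]
  calc _ ≤ ‖(a l * ev k v - ev k v * ((w k : B) * d l * star (w k : B))) -
        a l * (ev k v - y)‖ + ‖(ev k v - y) * ((w k : B) * d l * star (w k : B))‖ :=
        norm_add_le _ _
    _ ≤ (‖a l * ev k v - ev k v * ((w k : B) * d l * star (w k : B))‖ + ‖a l * (ev k v - y)‖) +
        η := by gcongr; exact norm_sub_le _ _
    _ < ε := by linarith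

end Pool.Agent.S71.UQ
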