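import Pool.Agent.S71.UQ.Blocks
import Pool.Agent.N194.UN.TT

/-! The approximate data. -/

set_option autoImplicit false

open Filter Topology MeasureTheory

noncomputable section

namespace Pool.Agent.S71.UQ

open Pool.Agent.N300.UN Pool.Agent.H923R2.FZ
open Pool.Agent.N300.UN.T_CORE0 (tc bs site_eq map_site)

/-- balls are infinite -/
theorem ball_inf {n : ℕ} (hn : 1 ≤ n) (z : Cube n) {r : ℝ} (hr : 0 < r) :
    (Metric.ball z r).Infinite := by
  have : Nontrivial (Cube n) := by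
    refine ⟨⟨fun _ => 0, fun _ => 1, fun h => ?_⟩⟩
    exact zero_ne_one (congrFun h ⟨0, hn⟩)
  have : ConnectedSpace (Cube n) := inferInstance
  exact infinite_of_mem_nhds z (Metric.ball_mem_nhds z hr)

section family

variable {n : ℕ} {J : Type} [Fintype J] {gh : J → C(Cube n, ℝ)} {z : J → Cube n} {δ : ℝ}

/-- the distance from the block values -/
def Dl (z : J → Cube n) (gh : J → C(Cube n, ℝ)) (l : Fin n) : C(Cube n, ℂ) :=
  ∑ j, (co l - algebraMap ℂ C(Cube n, ℂ) ((z j l : ℝ) : ℂ)) * cxf (gh j)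

theorem Dl_norm (hδ : 0 < δ) (hgh : ∀ a x, 0 ≤ gh a x ∧ gh a x ≤ 1)
    (hgd : ∀ a b, a ≠ b → gh a * gh b = 0) (hgs : ∀ a x, gh a x ≠ 0 → x ∈ Metric.ball (z a) δ)
    (l : Fin n) : ‖Dl z gh l‖ ≤ δ := by
  classical
  rw [ContinuousMap.norm_le _ hδ.le]
  intro x
  have hDx : Dl z gh l x = ∑ j, (((x l : ℝ) : ℂ) - ((z j l : ℝ) : ℂ)) * (gh j x : ℂ) := by
    simp only [Dl, ContinuousMap.sum_apply, ContinuousMap.mul_apply, ContinuousMap.sub_apply,
      cxf_apply]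
    rfl
  rw [hDx]
  by_cases h : ∃ a, gh a x ≠ 0
  · obtain ⟨a, ha⟩ := h
    rw [Finset.sum_eq_single a (fun b _ hb => by
      have h3 := DFunLike.congr_fun (hgd a b hb.symm) x
      rw [ContinuousMap.mul_apply, ContinuousMap.zero_apply] at h3
      rw [(mul_eq_zero.1 h3).resolve_left ha, Complex.ofReal_zero, mul_zero])
      fun h => absurd (Finset.mem_univ _) h]
    rw [norm_mul, ← Complex.ofReal_sub, Complex.norm_real, Complex.norm_real, Real.norm_eq_abs,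
      Real.norm_eq_abs, abs_of_nonneg (hgh a x).1]
    have h1 : |(x l : ℝ) - (z a l : ℝ)| ≤ dist x (z a) := by
      have := dist_le_pi_dist x (z a) l
      rwa [Subtype.dist_eq, Real.dist_eq] at this
    have h2 : dist x (z a) < δ := hgs a x ha
    calc |(x l : ℝ) - (z a l : ℝ)| * gh a x ≤ δ * 1 :=
          mul_le_mul (h1.trans h2.le) (hgh a x).2 (hgh a x).1 hδ.le
      _ = δ := mul_one _
  · push Not at h
    rw [Finset.sum_eq_zero fun b _ => by rw [h b, Complex.ofReal_zero, mul_zero], norm_zero]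
    exact hδ.le

theorem Dl_mul (hgd : ∀ a b, a ≠ b → gh a * gh b = 0) (l : Fin n) (a : J) :
    Dl z gh l * cxf (gh a) =
      (co l - algebraMap ℂ C(Cube n, ℂ) ((z a l : ℝ) : ℂ)) * (cxf (gh a) * cxf (gh a)) := by
  classical
  unfold Dl
  rw [Finset.sum_mul, Finset.sum_eq_single a (fun b _ hb => by
    rw [mul_assoc, ← cxf_mul, hgd b a hb, cxf_zero, mul_zero])
    fun h => absurd (Finset.mem_univ _) h, mul_assoc]

theorem Dl_act {Q : Type} [CStarAlgebra Q] (Φ : C(Cube n, ℂ) →⋆ₐ[ℂ] Q)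
    (hgd : ∀ a b, a ≠ b → gh a * gh b = 0) (l : Fin n) (a : J) (y : Q)
    (hy : Φ (cxf (gh a)) * y = y) :
    Φ (co l) * y = ((z a l : ℝ) : ℂ) • y + Φ (Dl z gh l) * y := by
  have e1 : Φ (Dl z gh l) * y = Φ (co l - algebraMap ℂ C(Cube n, ℂ) ((z a l : ℝ) : ℂ)) * y := by
    conv_lhs => rw [← hy, ← mul_assoc, ← map_mul, Dl_mul hgd, map_mul, map_mul, mul_assoc,
      mul_assoc, hy, hy]
  rw [e1, map_sub, sub_mul, AlgHomClass.commutes, ← Algebra.smul_def]
  abel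

end family

section data

variable {n : ℕ} {A : Type} [CStarAlgebra A] (μ : Measure (Cube n)) [IsProbabilityMeasure μ]

theorem cover_lt (g L : C(Cube n, ℝ)) (hL : ∀ x, 0 ≤ L x) (η : ℝ)
    (h1 : 2 * η ≤ μ.real {x | 0 < g x}) (h2 : μ.real {x | L x = 0} < η) :
    η < μ.real {x | 0 < (g * L) x} := by
  have h3 : μ.real {x | 0 < g x} ≤ μ.real {x | 0 < (g * L) x} + μ.real {x | L x = 0} := by
    refine le_trans (measureReal_mono ?_) (measureReal_union_le _ _)
    intro x hx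
    rcases (hL x).lt_or_eq with h | h
    · exact Or.inl (mul_pos hx h)
    · exact Or.inr h.symm
  linarith

theorem data (hn : 1 ≤ n) (hfull : ∀ U : Set (Cube n), IsOpen U → U.Nonempty → 0 < μ.real U)
    (hSR : SR A) (φ ψ : C(Cube n, ℂ) →⋆ₐ[ℂ] A) (hc : Cmp μ φ ψ) (hc' : Cmp μ φ φ)
    (m : ℕ) (hm : 1 ≤ m) (δ : ℝ) (hδ : 0 < δ) :
    ∃ (w : unitary A) (P : A) (e : ℝ) (R : ℕ → A), 0 < e ∧ star P = P ∧ ‖P‖ ≤ 4 ∧
      (∀ i, ‖R i‖ ≤ 2) ∧
      (∀ l : Fin n, ∀ r : ℕ, r = 1 ∨ r = 2 ∨ r = 3 →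
        ‖φ (co l) * cfc (kp e r) P - cfc (kp e r) P * φ (co l)‖ ≤ δ ∧
        ‖(w : A) * ψ (co l) * star (w : A) * cfc (kp e r) P -
          cfc (kp e r) P * ((w : A) * ψ (co l) * star (w : A))‖ ≤ δ) ∧
      (∀ l : Fin n, ‖(1 - cfc (kp e 1) P) *
        (φ (co l) - (w : A) * ψ (co l) * star (w : A))‖ ≤ δ) ∧
      (∀ i, 1 ≤ i → i ≤ 2 * m → ‖cfc (kp e 3) P * R i‖ ≤ δ) ∧
      (∀ i j, 1 ≤ i → i ≤ 2 * m → 1 ≤ j → j ≤ 2 * m →
        ‖star (R i) * R j - if i = j then cfc (kp e 3) P * cfc (kp e 3) P else 0‖ ≤ δ) ∧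
      ∀ (i : ℕ) (l : Fin n), 1 ≤ i → i ≤ 2 * m → ‖φ (co l) * R i -
        R i * site m (cfc (kp e 1) P) (φ (co l))
          ((w : A) * ψ (co l) * star (w : A)) i‖ ≤ δ := by
  classical
  obtain ⟨N, p, h, hh01, hh2, hhs, -⟩ := Pool.Agent.N194.UN.t_POU (Cube n) (δ / 8) (by positivity)
  obtain ⟨N', κ, r, hr01, hr2, hrs, -⟩ :=
    Pool.Agent.N194.UN.t_POU unitInterval (δ / 32) (by positivity)
  let J := Fin (2 * m + 1) × Fin N × Fin N'
  have hz01 : ∀ (j : J) (l : Fin n), zv m j.1 (κ j.2.2) (p j.2.1 l) ∈ unitInterval := by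
    intro j l
    obtain ⟨h1, h2⟩ := tc_01 hm (Nat.lt_succ_iff.1 j.1.2)
    obtain ⟨h3, h4⟩ := kp_01 (1 / 4) 1 (κ j.2.2)
    have h5 : 0 ≤ tc m j.1 * kp (1 / 4) 1 (κ j.2.2) := mul_nonneg h1 h3
    have h6 : tc m j.1 * kp (1 / 4) 1 (κ j.2.2) ≤ 1 := mul_le_one₀ h2 h3 h4
    unfold zv
    exact ⟨mul_nonneg (by linarith) (p j.2.1 l).2.1, mul_le_one₀ (by linarith) (p j.2.1 l).2.1
      (p j.2.1 l).2.2⟩
  let z : J → Cube n := fun j l => ⟨zv m j.1 (κ j.2.2) (p j.2.1 l), hz01 j l⟩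
  obtain ⟨g, gh, hg, hgh, hgpos, hgg, hgd, hgs⟩ := bumps (fun j : J => Metric.ball (z j) (δ / 8))
    (fun _ => Metric.isOpen_ball) (fun j => ball_inf hn _ (by positivity))
  have hμg : ∀ j, 0 < μ.real {x | 0 < g j x} := fun j =>
    hfull _ (isOpen_lt continuous_const (g j).continuous) (hgpos j)
  obtain ⟨η, hη, hη2⟩ : ∃ η : ℝ, 0 < η ∧ ∀ j, 2 * η ≤ μ.real {x | 0 < g j x} := by
    rcases isEmpty_or_nonempty J with hJ | hJ
    · exact ⟨1, one_pos, fun j => (hJ.false j).elim⟩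
    · obtain ⟨j0, hj0⟩ := Finite.exists_min fun j => μ.real {x | 0 < g j x}
      refine ⟨μ.real {x | 0 < g j0 x} / 2, half_pos (hμg j0), fun j => ?_⟩
      have := hj0 j
      linarith
  have hX : ∃ p q : Cube n, 1 ≤ dist p q := by
    refine ⟨fun _ => 0, fun _ => 1, ?_⟩
    have h1 := dist_le_pi_dist (fun _ => 0 : Cube n) (fun _ => 1) ⟨0, hn⟩
    rw [Subtype.dist_eq, Real.dist_eq] at h1
    simpa using h1
  set F : Finset C(Cube n, ℂ) := Finset.univ.image co ∪ Finset.univ.image (fun a => cxf (h a))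
    with hF
  have hW := fun ν : ℕ => lemW μ hfull hX hSR φ ψ hc F η (1 / ((ν : ℝ) + 1)) hη (by positivity)
  choose k Lf w hk01 hL0 hLk hLm hest using hW
  let cc : ℕ → C(Cube n, ℝ) := fun ν => cp (kp (1 / 4) 3) (kp_cont _ _) (k ν)
  have hcc : ∀ ν x, cc ν x = kp (1 / 4) 3 (k ν x) := fun _ _ => rfl
  have hccL : ∀ ν x, Lf ν x ≠ 0 → cc ν x = 0 := by
    intro ν x hx
    rw [hcc, hLk ν x ((hL0 ν x).lt_of_ne hx.symm)]
    exact kp_zero (by norm_num) 3 (by norm_num)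
  have hV : ∀ (j : J) (ν : ℕ), ∃ v : A, ‖v * φ (cxf (g j * Lf ν)) * star v -
      φ (cxf (cc ν * cc ν))‖ < 1 / ((ν : ℝ) + 1) := by
    intro j ν
    refine hc' (cc ν * cc ν) (g j * Lf ν) (fun x => mul_self_nonneg _)
      (fun x => mul_nonneg (hg j x).1 (hL0 ν x)) ?_ _ (by positivity)
    refine lt_of_le_of_lt ?_ (cover_lt μ (g j) (Lf ν) (hL0 ν) η (hη2 j)
      (hLm ν))
    refine le_trans (measureReal_mono ?_) (hLm ν).le
    intro x hx
    by_contra hcon
    have h1 : 0 < cc ν x * cc ν x := hx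
    rw [hccL ν x hcon, mul_zero] at h1
    exact lt_irrefl _ h1
  choose v hv using hV
  set y : J → ℕ → A := fun j ν => φ (cxf (sq (g j * Lf ν))) * star (v j ν) with hy
  have hys : ∀ j ν, star (y j ν) = v j ν * φ (cxf (sq (g j * Lf ν))) := fun j ν => by
    rw [hy]; simp only []
    rw [star_mul, star_star, ← map_star, star_cxf]
  have hyy1 : ∀ j ν, star (y j ν) * y j ν = v j ν * φ (cxf (g j * Lf ν)) * star (v j ν) := by
    intro j ν
    rw [hys]
    change v j ν * φ (cxf (sq (g j * Lf ν))) * (φ (cxf (sq (g j * Lf ν))) * star (v j ν)) = _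
    rw [mul_assoc, ← mul_assoc (φ _) (φ _), ← map_mul, ← cxf_mul, sq_mul_sq _ fun x => mul_nonneg
      (hg j x).1 (hL0 ν x), mul_assoc]
  have hgj0 : ∀ j j' x, j ≠ j' → gh j x ≠ 0 → gh j' x = 0 := by
    intro j j' x hjj hx
    have h3 := DFunLike.congr_fun (hgd j j' hjj) x
    rw [ContinuousMap.mul_apply, ContinuousMap.zero_apply] at h3
    exact (mul_eq_zero.1 h3).resolve_left hx
  have hg1 : ∀ j x, g j x ≠ 0 → gh j x = 1 := by
    intro j x hx
    have := DFunLike.congr_fun (hgg j) x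
    rw [ContinuousMap.mul_apply] at this
    exact mul_right_cancel₀ hx (by rw [this, one_mul])
  have hyy0 : ∀ j j' ν, j ≠ j' → star (y j ν) * y j' ν = 0 := by
    intro j j' ν hjj
    rw [hys]
    change v j ν * φ (cxf (sq (g j * Lf ν))) * (φ (cxf (sq (g j' * Lf ν))) * star (v j' ν)) = _
    have e1 : sq (g j * Lf ν) * sq (g j' * Lf ν) = 0 := by
      ext x
      rw [ContinuousMap.mul_apply, sq_apply, sq_apply, ContinuousMap.mul_apply,
        ContinuousMap.mul_apply, ContinuousMap.zero_apply]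
      by_cases h1 : g j x = 0
      · rw [h1, zero_mul, Real.sqrt_zero, zero_mul]
      · have h2 : g j' x = 0 := by
          by_contra h3
          have h4 := hgj0 j j' x hjj (by rw [hg1 j x h1]; exact one_ne_zero)
          rw [hg1 j' x h3] at h4
          exact one_ne_zero h4
        rw [h2, zero_mul, Real.sqrt_zero, mul_zero]
    rw [mul_assoc, ← mul_assoc (φ _) (φ _), ← map_mul, ← cxf_mul, e1, cxf_zero, map_zero, zero_mul,
      mul_zero]
  have hgy : ∀ j ν, φ (cxf (gh j)) * y j ν = y j ν := by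
    intro j ν
    change φ (cxf (gh j)) * (φ (cxf (sq (g j * Lf ν))) * star (v j ν)) =
      φ (cxf (sq (g j * Lf ν))) * star (v j ν)
    rw [← mul_assoc, ← map_mul, ← cxf_mul]
    congr 3
    ext x
    rw [ContinuousMap.mul_apply, sq_apply, ContinuousMap.mul_apply]
    by_cases h1 : g j x = 0
    · rw [h1, zero_mul, Real.sqrt_zero, mul_zero]
    · rw [hg1 j x h1, one_mul]
  have hcy : ∀ j ν, φ (cxf (cc ν)) * y j ν = 0 := by
    intro j ν
    change φ (cxf (cc ν)) * (φ (cxf (sq (g j * Lf ν))) * star (v j ν)) = 0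
    have e1 : cc ν * sq (g j * Lf ν) = 0 := by
      ext x
      rw [ContinuousMap.mul_apply, sq_apply, ContinuousMap.mul_apply, ContinuousMap.zero_apply]
      by_cases h1 : Lf ν x = 0
      · rw [h1, mul_zero, Real.sqrt_zero, mul_zero]
      · rw [hccL ν x h1, zero_mul]
    rw [← mul_assoc, ← map_mul, ← cxf_mul, e1, cxf_zero, map_zero, zero_mul]
  have hφn : ∀ (χ : C(Cube n, ℂ) →⋆ₐ[ℂ] A) (f : C(Cube n, ℝ)), (∀ x, 0 ≤ f x ∧ f x ≤ 1) →
      ‖χ (cxf f)‖ ≤ 1 := by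
    intro χ f hf
    refine (NonUnitalStarAlgHom.norm_apply_le χ _).trans ?_
    rw [ContinuousMap.norm_le _ zero_le_one]
    intro x
    rw [cxf_apply, Complex.norm_real, Real.norm_eq_abs, abs_of_nonneg (hf x).1]
    exact (hf x).2
  have hyb : ∀ j ν, ‖y j ν‖ ≤ 2 := by
    intro j ν
    have h1 : ‖y j ν‖ * ‖y j ν‖ ≤ 2 := by
      rw [← CStarRing.norm_star_mul_self, hyy1]
      have h2 := norm_le_norm_add_norm_sub' (v j ν * φ (cxf (g j * Lf ν)) * star (v j ν))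
        (φ (cxf (cc ν * cc ν)))
      have h3 : (1 : ℝ) / ((ν : ℝ) + 1) ≤ 1 := by
        rw [div_le_one (by positivity)]
        have : (0 : ℝ) ≤ ν := by positivity
        linarith
      have h4 := (hv j ν).le
      have h5 : ‖φ (cxf (cc ν * cc ν))‖ ≤ 1 := hφn φ _ fun x => by
        have h6 := kp_01 (1 / 4) 3 (k ν x)
        exact ⟨mul_self_nonneg _, mul_le_one₀ h6.2 h6.1 h6.2⟩
      linarith
    nlinarith [norm_nonneg (y j ν)]
  -- the sequence algebra
  obtain ⟨L, Q, _, _, ev, pr, cs, lf, ext, hlt, hle, hcs⟩ := seqAlg A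
  obtain ⟨Kh, hKh⟩ := lf (fun ν => φ (cxf (k ν))) ⟨1, fun ν => hφn φ _ (hk01 ν)⟩
  obtain ⟨K1, hK1⟩ := lf (fun ν => φ (cxf (sq (k ν)))) ⟨1, fun ν => hφn φ _ fun x => by
    rw [sq_apply]
    exact ⟨Real.sqrt_nonneg _, Real.sqrt_le_one.2 (hk01 ν x).2⟩⟩
  obtain ⟨K2, hK2⟩ := lf (fun ν => φ (cxf (sq (1 - k ν)))) ⟨1, fun ν => hφn φ _ fun x => by
    rw [sq_apply]
    refine ⟨Real.sqrt_nonneg _, Real.sqrt_le_one.2 ?_⟩
    have := (hk01 ν x).1
    change 1 - k ν x ≤ 1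
    linarith⟩
  obtain ⟨U, hU⟩ := lf (fun ν => (w ν : A)) ⟨1, fun ν => norm_unitary_le _⟩
  choose Y hY using fun j : J => lf (y j) ⟨2, hyb j⟩
  have hUU : star U * U = 1 := ext _ _ fun ν => by
    rw [map_mul, map_star, hU, map_one]; exact Unitary.coe_star_mul_self _
  have hUU' : U * star U = 1 := ext _ _ fun ν => by
    rw [map_mul, map_star, hU, map_one]; exact Unitary.coe_mul_star_self _
  let Uq : unitary Q := ⟨pr U, Unitary.mem_iff.2 ⟨by rw [← map_star, ← map_mul, hUU, map_one],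
    by rw [← map_star, ← map_mul, hUU', map_one]⟩⟩
  let Φ : C(Cube n, ℂ) →⋆ₐ[ℂ] Q := pr.comp (cs.comp φ)
  let Ψ : C(Cube n, ℂ) →⋆ₐ[ℂ] Q :=
    ((Unitary.conjStarAlgAut ℂ Q Uq : Q ≃⋆ₐ[ℂ] Q) : Q →⋆ₐ[ℂ] Q).comp (pr.comp (cs.comp ψ))
  have hΦa : ∀ f, Φ f = pr (cs (φ f)) := fun _ => rfl
  have hΨa : ∀ f, Ψ f = pr (U * cs (ψ f) * star U) := fun f => by
    rw [map_mul, map_mul, map_star]; rfl
  have hKhs : star Kh = Kh := ext _ _ fun ν => by rw [map_star, hKh, ← map_star, star_cxf]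
  have hKsa : IsSelfAdjoint (pr Kh) := by
    change star (pr Kh) = pr Kh
    rw [← map_star, hKhs]
  have hPC : PC (pr Kh) := by
    refine pc_of (pr Kh) (pr K1) (pr K2) ?_ ?_
    · rw [← map_star, ← map_mul]
      congr 1
      refine ext _ _ fun ν => ?_
      rw [map_mul, map_star, hK1, hKh, ← map_star, star_cxf, ← map_mul, ← cxf_mul,
        sq_mul_sq _ fun x => (hk01 ν x).1]
    · rw [← map_star, ← map_mul, ← map_one pr, ← map_sub]
      congr 1
      refine ext _ _ fun ν => ?_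
      rw [map_mul, map_star, hK2, map_sub, map_one, hKh, ← map_star, star_cxf, ← map_mul,
        ← cxf_mul, sq_mul_sq _ fun x => by
          have := (hk01 ν x).2
          change 0 ≤ 1 - k ν x
          linarith, cxf_sub, cxf_one, map_sub, map_one]
  have hcfcK : ∀ G : ℝ → ℝ, Continuous G → cfc G (pr Kh) = pr (cfc G Kh) := fun G hG =>
    (map_cfc' pr G hG hKhs).symm
  have hcfcν : ∀ (G : ℝ → ℝ) (hG : Continuous G) (ν : ℕ),
      ev ν (cfc G Kh) = φ (cxf (cp G hG (k ν))) := fun G hG ν => by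
    rw [map_cfc' (ev ν) G hG hKhs, hKh, cfc_hom_cxf φ G hG]
  have hcfcν' : ∀ (G : ℝ → ℝ) (_ : Continuous G) (ν : ℕ),
      ev ν (cfc G Kh) = cfc G (φ (cxf (k ν))) := fun G hG ν => by
    rw [map_cfc' (ev ν) G hG hKhs, hKh]
  -- relations
  have hcΦ : ∀ f, Commute (Φ f) (pr Kh) := fun f => by
    have h1 : Commute (cs (φ f)) Kh := ext _ _ fun ν => by
      rw [map_mul, map_mul, hcs, hKh, ← map_mul, ← map_mul, mul_comm]
    exact h1.map pr
  have hΨΦ : ∀ f ∈ F, (Ψ f - Φ f) * pr Kh = 0 := by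
    intro f hf
    rw [hΦa, hΨa, ← map_sub, ← map_mul]
    refine null_of ev pr hle _ 1 fun ν => ?_
    rw [map_mul, map_sub, map_mul, map_mul, map_star, hU, hcs, hcs, hKh, one_mul]
    exact (hest ν f hf).le
  have hstarF : ∀ f ∈ F, star f = f := by
    intro f hf
    rw [hF, Finset.mem_union, Finset.mem_image, Finset.mem_image] at hf
    rcases hf with ⟨l, -, rfl⟩ | ⟨a, -, rfl⟩
    · ext x
      change star ((((x l : ℝ)) : ℂ)) = _
      rw [Complex.star_def, Complex.conj_ofReal]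
      rfl
    · exact star_cxf _
  have hΨΦ' : ∀ f ∈ F, pr Kh * (Ψ f - Φ f) = 0 := by
    intro f hf
    have h1 := congrArg star (hΨΦ f hf)
    have h2 : star (Ψ f - Φ f) = Ψ f - Φ f := by
      rw [star_sub, ← map_star Ψ, ← map_star Φ, hstarF f hf]
    rw [star_mul, star_zero, hKsa.star_eq, h2] at h1
    exact h1
  have hcΨ : ∀ f ∈ F, Commute (Ψ f) (pr Kh) := by
    intro f hf
    have h1 := hΨΦ f hf
    have h2 := hΨΦ' f hf
    rw [sub_mul, sub_eq_zero] at h1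
    rw [mul_sub, sub_eq_zero] at h2
    change Ψ f * pr Kh = pr Kh * Ψ f
    rw [h1, h2]
    exact hcΦ f
  have hFco : ∀ l : Fin n, co l ∈ F := fun l => by
    rw [hF]
    exact Finset.mem_union_left _ (Finset.mem_image_of_mem _ (Finset.mem_univ _))
  have hFh : ∀ a, cxf (h a) ∈ F := fun a => by
    rw [hF]
    exact Finset.mem_union_right _ (Finset.mem_image_of_mem (fun a => cxf (h a)) (Finset.mem_univ _))
  -- the block elements
  let yq : ℕ → Fin N → Fin N' → Q := fun i a b =>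
    if hi : i < 2 * m + 1 then pr (Y (⟨i, hi⟩, a, b)) else 0
  have hyq : ∀ i a b (hi : i ≤ 2 * m), yq i a b = pr (Y (⟨i, Nat.lt_succ_iff.2 hi⟩, a, b)) :=
    fun i a b hi => dif_pos (Nat.lt_succ_iff.2 hi)
  have hYY : ∀ j j' : J, star (pr (Y j)) * pr (Y j') = if j = j' then
      cfc (kp (1 / 4) 3) (pr Kh) * cfc (kp (1 / 4) 3) (pr Kh) else 0 := by
    intro j j'
    split_ifs with hjj
    · subst hjj
      rw [hcfcK _ (kp_cont _ _), ← map_star, ← map_mul, ← map_mul]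
      refine eq_of ev pr hle _ _ 1 fun ν => ?_
      rw [map_mul, map_star, hY, map_mul, hcfcν _ (kp_cont _ _), ← map_mul φ, ← cxf_mul, one_mul,
        hyy1]
      exact (hv j ν).le
    · have h1 : star (Y j) * Y j' = 0 := ext _ _ fun ν => by
        rw [map_mul, map_star, hY, hY, hyy0 j j' ν hjj, map_zero]
      rw [← map_star, ← map_mul, h1, map_zero]
  obtain ⟨hB1, hB2, hB3, hB4⟩ := blocks Φ Ψ (pr Kh) hKsa hPC.2 m hm δ hδ p h hh2 hhs κ r hr2 hrs
    hcΦ (fun a => hcΨ _ (hFh a)) (fun l => hcΨ _ (hFco l)) yq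
    (by
      intro i j a b a' b' h1 h2 h3 h4
      rw [hyq i a b h2, hyq j a' b' h4, hYY]
      by_cases h5 : i = j ∧ a = a' ∧ b = b'
      · rw [if_pos h5, if_pos]
        obtain ⟨rfl, rfl, rfl⟩ := h5
        rfl
      · rw [if_neg h5, if_neg]
        intro h6
        refine h5 ⟨?_, ?_, ?_⟩
        · exact congrArg (fun q : Fin (2 * m + 1) × Fin N × Fin N' => (q.1 : ℕ)) h6
        · exact congrArg (fun q : Fin (2 * m + 1) × Fin N × Fin N' => q.2.1) h6
        · exact congrArg (fun q : Fin (2 * m + 1) × Fin N × Fin N' => q.2.2) h6)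
    (by
      intro i a b h1 h2
      rw [hyq i a b h2, hcfcK _ (kp_cont _ _), ← map_mul]
      have h3 : cfc (kp (1 / 4) 3) Kh * Y (⟨i, Nat.lt_succ_iff.2 h2⟩, a, b) = 0 :=
        ext _ _ fun ν => by
          rw [map_mul, hcfcν _ (kp_cont _ _), hY, map_zero]
          exact hcy _ ν
      rw [h3, map_zero])
    (by
      intro l
      refine ⟨Dl z gh l, Dl_norm (by positivity) hgh hgd hgs l, fun i a b h1 h2 => ?_⟩
      rw [hyq i a b h2]
      have h3 := Dl_act (z := z) Φ hgd l (⟨i, Nat.lt_succ_iff.2 h2⟩, a, b)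
        (pr (Y (⟨i, Nat.lt_succ_iff.2 h2⟩, a, b))) (by
          rw [hΦa, ← map_mul]
          congr 1
          refine ext _ _ fun ν => ?_
          rw [map_mul, hcs, hY]
          exact hgy _ ν)
      exact h3)
  -- lifts
  have hRr : ∀ i, i ≤ 2 * m → ∃ X : L, pr X = Rb Φ Ψ (pr Kh) m yq h r i := by
    intro i hi
    have h1 : Rb Φ Ψ (pr Kh) m yq h r i ∈ pr.range := by
      unfold Rb
      refine sum_mem fun a _ => sum_mem fun b _ => mul_mem (mul_mem ?_ ?_) ?_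
      · rw [hyq i a b hi]; exact ⟨_, rfl⟩
      · unfold ch
        split_ifs
        · rw [hΦa]; exact ⟨_, rfl⟩
        · rw [hΨa]; exact ⟨_, rfl⟩
      · rw [hcfcK _ (ext1_cont _)]; exact ⟨_, rfl⟩
    obtain ⟨X, hX⟩ := h1
    exact ⟨X, hX⟩
  have hRr' : ∀ i, ∃ X : L, i ≤ 2 * m → pr X = Rb Φ Ψ (pr Kh) m yq h r i := fun i => by
    by_cases hi : i ≤ 2 * m
    · obtain ⟨X, hX⟩ := hRr i hi
      exact ⟨X, fun _ => hX⟩
    · exact ⟨0, fun h => absurd h hi⟩
  choose RL hRL using hRr'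
  have hσdiff : ∀ l, (1 - cfc (kp (1 / 4) 1) (pr Kh)) * (Φ (co l) - Ψ (co l)) = 0 := by
    intro l
    let G' : ℝ → ℝ := fun t => (1 - kp (1 / 4) 1 t) / max t (1 / 4)
    have hG' : Continuous G' := by
      have := kp_cont (1 / 4) 1
      refine Continuous.div (by fun_prop) (by fun_prop) fun t => ?_
      exact (lt_of_lt_of_le (by norm_num) (le_max_right t (1 / 4))).ne'
    have e1 : (1 : Q) - cfc (kp (1 / 4) 1) (pr Kh) = cfc G' (pr Kh) * pr Kh := by
      have e0 : cfc G' (pr Kh) * pr Kh = cfc G' (pr Kh) * cfc (fun t : ℝ => t) (pr Kh) := by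
        rw [cfc_id' ℝ (pr Kh) hKsa]
      rw [e0, cmul _ _ _ hG' continuous_id', ← cfc_const_one ℝ (pr Kh) hKsa,
        ← cfc_sub (fun _ => (1 : ℝ)) (kp (1 / 4) 1) (pr Kh) continuousOn_const
          (kp_cont _ _).continuousOn]
      refine cfc_congr fun t _ => ?_
      change 1 - kp (1 / 4) 1 t = (1 - kp (1 / 4) 1 t) / max t (1 / 4) * t
      by_cases ht : t ≤ 1 / 4
      · rw [kp_one (by norm_num) 1 (by push_cast; linarith), sub_self, zero_div, zero_mul]
      · have ht' : 1 / 4 < t := not_le.1 ht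
        rw [max_eq_left ht'.le, div_mul_cancel₀]
        linarith
    have e2 := hΨΦ' _ (hFco l)
    rw [e1, mul_assoc, ← neg_sub (Ψ (co l)) (Φ (co l)), mul_neg, e2, neg_zero, mul_zero]
  have hcosF : ∀ l : Fin n, star (co l) = co l := fun l => hstarF _ (hFco l)
  -- eventual estimates
  have E1 : ∀ᶠ ν in atTop, ∀ i : Fin (2 * m + 1), 1 ≤ (i : ℕ) → ‖ev ν (RL i)‖ < 2 := by
    rw [Filter.eventually_all]
    intro i
    rw [Filter.eventually_imp_distrib_left]
    intro h1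
    refine hlt _ _ ?_
    have hi : (i : ℕ) ≤ 2 * m := Nat.lt_succ_iff.1 i.2
    rw [hRL i hi]
    exact lt_of_le_of_lt (hB3 i h1 hi) (by norm_num)
  have E2 : ∀ᶠ ν in atTop, ∀ (l : Fin n) (r' : Fin 4),
      ‖ev ν (U * cs (ψ (co l)) * star U * cfc (kp (1 / 4) r') Kh -
        cfc (kp (1 / 4) r') Kh * (U * cs (ψ (co l)) * star U))‖ < δ := by
    rw [Filter.eventually_all]
    intro l
    rw [Filter.eventually_all]
    intro r'
    refine hlt _ _ ?_
    have h1 : Commute (Ψ (co l)) (cfc (kp (1 / 4) r') (pr Kh)) :=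
      ((hcΨ _ (hFco l)).symm.cfc_real _).symm
    rw [map_sub, map_mul pr (U * cs (ψ (co l)) * star U), map_mul pr (cfc (kp (1 / 4) r') Kh),
      ← hΨa, ← hcfcK _ (kp_cont _ _), h1.eq, sub_self, norm_zero]
    exact hδ
  have E3 : ∀ᶠ ν in atTop, ∀ (l : Fin n), ‖ev ν ((1 - cfc (kp (1 / 4) 1) Kh) *
      (cs (φ (co l)) - U * cs (ψ (co l)) * star U))‖ < δ := by
    rw [Filter.eventually_all]
    intro l
    refine hlt _ _ ?_
    rw [map_mul pr, map_sub pr, map_sub pr, map_one, ← hΨa, ← hΦa, ← hcfcK _ (kp_cont _ _),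
      hσdiff, norm_zero]
    exact hδ
  have E4 : ∀ᶠ ν in atTop, ∀ (i : Fin (2 * m + 1)), 1 ≤ (i : ℕ) →
      ‖ev ν (cfc (kp (1 / 4) 3) Kh * RL i)‖ < δ := by
    rw [Filter.eventually_all]
    intro i
    rw [Filter.eventually_imp_distrib_left]
    intro h1
    refine hlt _ _ ?_
    have hi : (i : ℕ) ≤ 2 * m := Nat.lt_succ_iff.1 i.2
    rw [map_mul, hRL i hi, ← hcfcK _ (kp_cont _ _), hB1 i h1 hi, norm_zero]
    exact hδ
  have E5 : ∀ᶠ ν in atTop, ∀ (i j : Fin (2 * m + 1)), 1 ≤ (i : ℕ) → 1 ≤ (j : ℕ) →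
      ‖ev ν (star (RL i) * RL j - if (i : ℕ) = j then cfc (kp (1 / 4) 3) Kh *
        cfc (kp (1 / 4) 3) Kh else 0)‖ < δ := by
    rw [Filter.eventually_all]
    intro i
    rw [Filter.eventually_all]
    intro j
    rw [Filter.eventually_imp_distrib_left]
    intro h1
    rw [Filter.eventually_imp_distrib_left]
    intro h2
    refine hlt _ _ ?_
    have hi : (i : ℕ) ≤ 2 * m := Nat.lt_succ_iff.1 i.2
    have hj : (j : ℕ) ≤ 2 * m := Nat.lt_succ_iff.1 j.2
    rw [map_sub, map_mul, map_star, hRL i hi, hRL j hj, hB2 i j h1 hi h2 hj]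
    split_ifs with h3
    · rw [map_mul, ← hcfcK _ (kp_cont _ _), sub_self, norm_zero]
      exact hδ
    · rw [map_zero, sub_self, norm_zero]
      exact hδ
  have E6 : ∀ᶠ ν in atTop, ∀ (i : Fin (2 * m + 1)) (l : Fin n), 1 ≤ (i : ℕ) →
      ‖ev ν (cs (φ (co l)) * RL i - RL i * site m (cfc (kp (1 / 4) 1) Kh) (cs (φ (co l)))
        (U * cs (ψ (co l)) * star U) i)‖ < δ := by
    rw [Filter.eventually_all]
    intro i
    rw [Filter.eventually_all]
    intro l
    rw [Filter.eventually_imp_distrib_left]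
    intro h1
    refine hlt _ _ ?_
    have hi : (i : ℕ) ≤ 2 * m := Nat.lt_succ_iff.1 i.2
    rw [map_sub, map_mul, map_mul, map_site, ← hΨa, ← hΦa, ← hcfcK _ (kp_cont _ _), hRL i hi]
    exact lt_of_le_of_lt (hB4 i l h1 hi) (by linarith)
  obtain ⟨ν, H1, H2, H3, H4, H5, H6⟩ := (E1.and (E2.and (E3.and (E4.and (E5.and E6))))).exists
  have hKν : ∀ r' : ℕ, ev ν (cfc (kp (1 / 4) r') Kh) = cfc (kp (1 / 4) r') (φ (cxf (k ν))) :=
    fun r' => hcfcν' _ (kp_cont _ _) ν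
  refine ⟨w ν, φ (cxf (k ν)), 1 / 4, fun i => if 1 ≤ i ∧ i ≤ 2 * m then ev ν (RL i) else 0,
    by norm_num, by rw [← map_star, star_cxf], (hφn φ _ (hk01 ν)).trans (by norm_num), ?_, ?_, ?_,
    ?_, ?_, ?_⟩
  · intro i
    by_cases hi : 1 ≤ i ∧ i ≤ 2 * m
    · simp only [if_pos hi]
      exact (H1 ⟨i, Nat.lt_succ_iff.2 hi.2⟩ hi.1).le
    · simp only [if_neg hi]
      rw [norm_zero]
      norm_num
  · intro l r' hr'
    constructor
    · rw [cfc_hom_cxf φ _ (kp_cont _ _), ← map_mul, ← map_mul, mul_comm, sub_self, norm_zero]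
      exact hδ.le
    · have hr4 : r' < 4 := by rcases hr' with rfl | rfl | rfl <;> norm_num
      have h1 := H2 l ⟨r', hr4⟩
      simp only [map_sub, map_mul, map_star, hU, hcs, hKν] at h1
      exact h1.le
  · intro l
    have h1 := H3 l
    simp only [map_sub, map_mul, map_star, map_one, hU, hcs, hKν] at h1
    exact h1.le
  · intro i h1 h2
    have h3 := H4 ⟨i, Nat.lt_succ_iff.2 h2⟩ h1
    simp only [map_mul, hKν] at h3
    simp only [if_pos (And.intro h1 h2)]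
    exact h3.le
  · intro i j h1 h2 h3 h4
    have h5 := H5 ⟨i, Nat.lt_succ_iff.2 h2⟩ ⟨j, Nat.lt_succ_iff.2 h4⟩ h1 h3
    simp only [if_pos (And.intro h1 h2), if_pos (And.intro h3 h4)]
    by_cases hij : i = j
    · simp only [if_pos hij, map_sub, map_mul, map_star, hKν] at h5 ⊢
      exact h5.le
    · simp only [if_neg hij, map_sub, map_mul, map_star, map_zero] at h5 ⊢
      exact h5.le
  · intro i l h1 h2
    have h3 := H6 ⟨i, Nat.lt_succ_iff.2 h2⟩ l h1
    simp only [map_sub, map_mul, map_star, map_site, hU, hcs, hKν] at h3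
    simp only [if_pos (And.intro h1 h2)]
    exact h3.le

end data

end Pool.Agent.S71.UQ
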